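import Pool.Agent.Lib.HS.C.Spec
import Pool.Agent.Lib.MP_a54f13_nt.Hp.Tub
import Pool.Agent.Lib.MP_a54f13_nt.Hp.Nm

/-!
# Package `HS`, part C: matched cells give returns (`StmtMc`)
-/

set_option autoImplicit false

namespace Pool.Agent.A54.HS

open MeasureTheory Filter Topology Set
open scoped ContDiff ComplexConjugate UpperHalfPlane MatrixGroups ENNReal
open Pool.Agent.A54.Dyn (G fl base ze io mk4 dom)
open Pool.Agent.A54.Av (Mat NonSc)
open Pool.Agent.A54.Hp Pool.Agent.A54.Hp.Hk Pool.Agent.A54.Hp.A2M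

noncomputable section

/-- the representative lies in the cell -/
lemma rp_mem {R w : ℝ} {z : Fin 3 → ℤ} (h : (cel R w z).Nonempty) : rp R w z ∈ cel R w z := by
  unfold rp
  rw [dif_pos h]
  exact h.some_mem

/-- two points of a cell -/
lemma cel_pair {R C w : ℝ} (hC : ∀ (ζ : Fin 3 → ℝ) (w : ℝ), 0 < w →
    ∀ x₀ ∈ Tb R ζ w, ∀ x ∈ Tb R ζ w, |(x₀⁻¹ * x) 0 0| ≤ C ∧ |(x₀⁻¹ * x) 1 1| ≤ C ∧
      |(x₀⁻¹ * x) 0 1| ≤ C * w ∧ |(x₀⁻¹ * x) 1 0| ≤ C * w) (hw : 0 < w) {z : Fin 3 → ℤ} {x₀ x : G}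
    (h₀ : x₀ ∈ cel R w z) (h : x ∈ cel R w z) : |(x₀⁻¹ * x) 0 0| ≤ C ∧ |(x₀⁻¹ * x) 1 1| ≤ C ∧
      |(x₀⁻¹ * x) 0 1| ≤ C * w ∧ |(x₀⁻¹ * x) 1 0| ≤ C * w :=
  hC (xi x₀) w hw x₀ (cel_sub_Tb hw h₀ h₀) x (cel_sub_Tb hw h₀ h)

/-- the frame of an integral matrix -/
lemma fr_eq (x y : G) (s : Mat) (n : ℕ) (hn : 0 < n) (hs : s.det = (n : ℤ) ^ 2) :
    HSL.fr x.1 y.1 s = (n : ℝ) • (y⁻¹ * nm s * x).1 := by
  have hn' : (0 : ℝ) < n := by exact_mod_cast hn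
  have hd : 0 < s.det := by rw [hs]; positivity
  have h1 : √((s.det : ℤ) : ℝ) = n := by
    rw [hs]
    push_cast
    exact Real.sqrt_sq hn'.le
  have h2 : HSL.toR s = (n : ℝ) • (nm s).1 := by
    ext i j
    have h3 := NmM.nm_of hd i j
    rw [h1] at h3
    show ((s i j : ℤ) : ℝ) = (n : ℝ) * nm s i j
    rw [h3]
    field_simp
  unfold HSL.fr
  rw [h2, Matrix.mul_smul, Matrix.smul_mul, Matrix.SpecialLinearGroup.coe_mul,
    Matrix.SpecialLinearGroup.coe_mul, Matrix.SpecialLinearGroup.coe_inv]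

theorem stmtMc : StmtMc := by
  intro R hR
  obtain ⟨C, hC1, hC⟩ := stmtTub R hR
  have hC0 : 0 < C := by linarith
  refine ⟨2 * C ^ 2, by nlinarith, ?_⟩
  rintro w hw hw1 z z' s n hn hs ⟨g, hg, hg'⟩
  have hx := rp_mem (⟨g, hg⟩ : (cel R w z).Nonempty)
  have hy := rp_mem (⟨_, hg'⟩ : (cel R w z').Nonempty)
  set x := rp R w z with hxd
  set y := rp R w z' with hyd
  obtain ⟨a1, a2, a3, a4⟩ := cel_pair hC hw hy hg'
  obtain ⟨b1, b2, b3, b4⟩ := cel_pair hC hw hg hx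
  have hn' : (0 : ℝ) < n := by exact_mod_cast hn
  have e : y⁻¹ * nm s * x = (y⁻¹ * (nm s * g)) * (g⁻¹ * x) := by group
  have hfr := fr_eq x y s n hn hs
  rw [e] at hfr
  set e1 : G := y⁻¹ * (nm s * g) with he1
  set e2 : G := g⁻¹ * x with he2
  have hent : ∀ i j, HSL.fr x.1 y.1 s i j = n * (e1 i 0 * e2 0 j + e1 i 1 * e2 1 j) := by
    intro i j
    rw [hfr, Matrix.smul_apply, smul_eq_mul]
    congr 1
    exact NmM.mul_ij e1 e2 i j
  have key : ∀ {a b c d p q r t : ℝ}, |a| ≤ p → |b| ≤ q → |c| ≤ r → |d| ≤ t → 0 ≤ p → 0 ≤ r →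
      |(n : ℝ) * (a * b + c * d)| ≤ (p * q + r * t) * n := by
    intro a b c d p q r t ha hb hc hd hp hr
    rw [abs_mul, abs_of_pos hn', mul_comm]
    refine mul_le_mul_of_nonneg_right ?_ hn'.le
    refine (abs_add_le _ _).trans (add_le_add ?_ ?_)
    · rw [abs_mul]
      exact mul_le_mul ha hb (abs_nonneg _) hp
    · rw [abs_mul]
      exact mul_le_mul hc hd (abs_nonneg _) hr
  have hCw : 0 ≤ C * w := by positivity
  have hww : w * w ≤ 1 := by nlinarith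
  have hCC : C * w * (C * w) ≤ C * C := by nlinarith [mul_nonneg hC0.le hC0.le]
  refine ⟨hs, hn, ?_, ?_, ?_, ?_⟩
  · rw [hent]
    refine (key a1 b1 a3 b4 hC0.le hCw).trans ?_
    refine mul_le_mul_of_nonneg_right ?_ hn'.le
    nlinarith
  · rw [hent]
    refine (key a4 b3 a2 b2 hCw hC0.le).trans ?_
    refine mul_le_mul_of_nonneg_right ?_ hn'.le
    nlinarith
  · rw [hent]
    refine (key a1 b3 a3 b2 hC0.le hCw).trans ?_
    refine mul_le_mul_of_nonneg_right ?_ hn'.le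
    nlinarith
  · rw [hent]
    refine (key a4 b1 a2 b4 hCw hC0.le).trans ?_
    refine mul_le_mul_of_nonneg_right ?_ hn'.le
    nlinarith

end

end Pool.Agent.A54.HS
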