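import Pool.Agent.Lib.HS.C.Spec
import Pool.Agent.Lib.MP_a54f13_nt.Hp.LBase

/-!
# Package `HS`, part C, module Ov: overlap of the cells

helper85 (statement and proof on paper: helper36).
-/

set_option autoImplicit false

namespace Pool.Agent.A54.HS.OvC

open Set
open Pool.Agent.A54.Dyn (G)
open Pool.Agent.A54.Hp

noncomputable section

lemma rp_mem {R w : ℝ} {z : Fin 3 → ℤ} (h : (cel R w z).Nonempty) : rp R w z ∈ cel R w z := by
  unfold rp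
  rw [dif_pos h]
  exact h.some_mem

lemma mul4 {R c w a b e f : ℝ} (hR : 0 ≤ R) (hc : 0 ≤ c) (ha : |a| ≤ R) (hb : |b| ≤ R)
    (he : |e| ≤ c) (hf : |f| ≤ c * w) : |a * b * (e * f)| ≤ R ^ 2 * c ^ 2 * w := by
  rw [abs_mul, abs_mul, abs_mul]
  calc |a| * |b| * (|e| * |f|) ≤ (R * R) * (c * (c * w)) :=
        mul_le_mul (mul_le_mul ha hb (abs_nonneg _) hR) (mul_le_mul he hf (abs_nonneg _) hc)
          (by positivity) (by positivity)
    _ = R ^ 2 * c ^ 2 * w := by ring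

lemma key {R c w a b p q x y z t : ℝ} (hR : 0 ≤ R) (hc : 0 ≤ c) (hw : 0 ≤ w) (hw1 : w ≤ 1)
    (ha : |a| ≤ R) (hb : |b| ≤ R) (hp : |p| ≤ R) (hq : |q| ≤ R)
    (hx : |x| ≤ c) (hy : |y| ≤ c * w) (hz : |z| ≤ c * w) (ht : |t| ≤ c) (hd : x * t - y * z = 1) :
    |((a * x + b * z) * (p * y + q * t) + (a * y + b * t) * (p * x + q * z)) - (a * q + b * p)|
      ≤ 8 * R ^ 2 * c ^ 2 * w := by
  have hy' : |y| ≤ c := hy.trans (by nlinarith)
  have h1 := abs_le.1 (mul4 hR hc ha hq hy' hz)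
  have h2 := abs_le.1 (mul4 hR hc hb hp hy' hz)
  have h3 := abs_le.1 (mul4 hR hc ha hp hx hy)
  have h4 := abs_le.1 (mul4 hR hc hb hq ht hz)
  have e : ((a * x + b * z) * (p * y + q * t) + (a * y + b * t) * (p * x + q * z)) - (a * q + b * p) =
      2 * (a * q * (y * z)) + 2 * (b * p * (y * z)) + 2 * (a * p * (x * y)) + 2 * (b * q * (t * z)) := by
    linear_combination (a * q + b * p) * hd
  rw [e, abs_le]
  constructor <;> linarith [h1.1, h1.2, h2.1, h2.2, h3.1, h3.2, h4.1, h4.2]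

/-- the point `P / m` of the group, `P` of determinant `m²` -/
def xm (m : ℝ) (P : HSL.MR) : Fin 3 → ℝ :=
  ![(P 0 0 * P 1 1 + P 0 1 * P 1 0) / m ^ 2, -(P 0 0 * P 0 1) / m ^ 2, P 1 0 * P 1 1 / m ^ 2]

/-- one target: the entries of `P = γ h x`, and its geodesic -/
lemma target {R c w m : ℝ} (hR : 0 ≤ R) (hc : 0 ≤ c) (hw : 0 ≤ w) (hw1 : w ≤ 1) (hm : 0 < m)
    {u : G} (hu : u ∈ Om R) {P : HSL.MR} (hP : P.det = m ^ 2)
    (hN : HSL.Near c w m (u.1.adjugate * P)) :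
    (∀ i j, |P i j| ≤ 2 * R * c * m) ∧ ∀ i, |xm m P i - xi u i| ≤ 8 * R ^ 2 * c ^ 2 * w := by
  obtain ⟨F, hF⟩ : ∃ F, F = u.1.adjugate * P := ⟨_, rfl⟩
  have hdet : u.1 0 0 * u.1 1 1 - u.1 0 1 * u.1 1 0 = 1 := Dyn.det_eq u
  have hPF : P = u.1 * F := by
    rw [hF, ← Matrix.mul_assoc, Matrix.mul_adjugate, u.2, one_smul, one_mul]
  have hFd : F.det = m ^ 2 := by
    rw [hF, Matrix.det_mul, Matrix.det_adjugate, u.2, hP]
    simp
  rw [← hF] at hN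
  obtain ⟨n0, n1, n2, n3⟩ := hN
  have r00 : |u.1 0 0| ≤ R := hu 0 0
  have r01 : |u.1 0 1| ≤ R := hu 0 1
  have r10 : |u.1 1 0| ≤ R := hu 1 0
  have r11 : |u.1 1 1| ≤ R := hu 1 1
  -- the normalised frame
  obtain ⟨x, hx⟩ : ∃ x, x = F 0 0 / m := ⟨_, rfl⟩
  obtain ⟨y, hy⟩ : ∃ y, y = F 0 1 / m := ⟨_, rfl⟩
  obtain ⟨z, hz⟩ : ∃ z, z = F 1 0 / m := ⟨_, rfl⟩
  obtain ⟨t, ht⟩ : ∃ t, t = F 1 1 / m := ⟨_, rfl⟩
  have bx : |x| ≤ c := by
    rw [hx, abs_div, abs_of_pos hm, div_le_iff₀ hm]; exact n0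
  have bt : |t| ≤ c := by
    rw [ht, abs_div, abs_of_pos hm, div_le_iff₀ hm]; exact n1
  have bY : |y| ≤ c * w := by
    rw [hy, abs_div, abs_of_pos hm, div_le_iff₀ hm]; exact n2
  have bz : |z| ≤ c * w := by
    rw [hz, abs_div, abs_of_pos hm, div_le_iff₀ hm]; exact n3
  have f00 : F 0 0 = m * x := by rw [hx]; field_simp
  have f01 : F 0 1 = m * y := by rw [hy]; field_simp
  have f10 : F 1 0 = m * z := by rw [hz]; field_simp
  have f11 : F 1 1 = m * t := by rw [ht]; field_simp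
  have hd : x * t - y * z = 1 := by
    rw [Matrix.det_fin_two, f00, f01, f10, f11] at hFd
    have : m ^ 2 * (x * t - y * z) = m ^ 2 * 1 := by linear_combination hFd
    exact mul_left_cancel₀ (pow_ne_zero 2 hm.ne') this
  have bY' : |y| ≤ c := bY.trans (by nlinarith)
  have bz' : |z| ≤ c := bz.trans (by nlinarith)
  have p00 : P 0 0 = m * (u.1 0 0 * x + u.1 0 1 * z) := by
    rw [hPF, Matrix.mul_apply, Fin.sum_univ_two, f00, f10]; ring
  have p01 : P 0 1 = m * (u.1 0 0 * y + u.1 0 1 * t) := by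
    rw [hPF, Matrix.mul_apply, Fin.sum_univ_two, f01, f11]; ring
  have p10 : P 1 0 = m * (u.1 1 0 * x + u.1 1 1 * z) := by
    rw [hPF, Matrix.mul_apply, Fin.sum_univ_two, f00, f10]; ring
  have p11 : P 1 1 = m * (u.1 1 0 * y + u.1 1 1 * t) := by
    rw [hPF, Matrix.mul_apply, Fin.sum_univ_two, f01, f11]; ring
  have two : ∀ a b s s' : ℝ, |a| ≤ R → |b| ≤ R → |s| ≤ c → |s'| ≤ c →
      |m * (a * s + b * s')| ≤ 2 * R * c * m := by
    intro a b s s' h1 h2 h3 h4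
    rw [abs_mul, abs_of_pos hm]
    have g1 : |a * s| ≤ R * c := by
      rw [abs_mul]; exact mul_le_mul h1 h3 (abs_nonneg _) hR
    have g2 : |b * s'| ≤ R * c := by
      rw [abs_mul]; exact mul_le_mul h2 h4 (abs_nonneg _) hR
    have g3 := abs_add_le (a * s) (b * s')
    nlinarith
  refine ⟨?_, ?_⟩
  · intro i j
    fin_cases i <;> fin_cases j
    · exact p00 ▸ two _ _ _ _ r00 r01 bx bz'
    · exact p01 ▸ two _ _ _ _ r00 r01 bY' bt
    · exact p10 ▸ two _ _ _ _ r10 r11 bx bz'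
    · exact p11 ▸ two _ _ _ _ r10 r11 bY' bt
  · have k0 := key hR hc hw hw1 r00 r01 r10 r11 bx bY bz bt hd
    have k1 := key hR hc hw hw1 r00 r01 r00 r01 bx bY bz bt hd
    have k2 := key hR hc hw hw1 r10 r11 r10 r11 bx bY bz bt hd
    have e0 : xm m P 0 = (P 0 0 * P 1 1 + P 0 1 * P 1 0) / m ^ 2 := rfl
    have e1 : xm m P 1 = -(P 0 0 * P 0 1) / m ^ 2 := rfl
    have e2 : xm m P 2 = P 1 0 * P 1 1 / m ^ 2 := rfl
    have x0 : xi u 0 = u.1 0 0 * u.1 1 1 + u.1 0 1 * u.1 1 0 := rfl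
    have x1 : xi u 1 = -(u.1 0 0 * u.1 0 1) := rfl
    have x2 : xi u 2 = u.1 1 0 * u.1 1 1 := rfl
    have hm2 : m ^ 2 ≠ 0 := pow_ne_zero 2 hm.ne'
    intro i
    fin_cases i
    · show |xm m P 0 - xi u 0| ≤ _
      have : xm m P 0 - xi u 0 = ((u.1 0 0 * x + u.1 0 1 * z) * (u.1 1 0 * y + u.1 1 1 * t) +
          (u.1 0 0 * y + u.1 0 1 * t) * (u.1 1 0 * x + u.1 1 1 * z)) -
          (u.1 0 0 * u.1 1 1 + u.1 0 1 * u.1 1 0) := by
        rw [e0, x0, p00, p01, p10, p11]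
        field_simp
      rw [this]
      exact k0
    · show |xm m P 1 - xi u 1| ≤ _
      have : xm m P 1 - xi u 1 = -(1 / 2) * (((u.1 0 0 * x + u.1 0 1 * z) * (u.1 0 0 * y + u.1 0 1 * t) +
          (u.1 0 0 * y + u.1 0 1 * t) * (u.1 0 0 * x + u.1 0 1 * z)) -
          (u.1 0 0 * u.1 0 1 + u.1 0 1 * u.1 0 0)) := by
        rw [e1, x1, p00, p01]
        field_simp
        ring
      rw [this, abs_mul]
      have h2 : |(-(1 / 2) : ℝ)| = 1 / 2 := by norm_num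
      rw [h2]
      nlinarith [abs_nonneg (((u.1 0 0 * x + u.1 0 1 * z) * (u.1 0 0 * y + u.1 0 1 * t) +
          (u.1 0 0 * y + u.1 0 1 * t) * (u.1 0 0 * x + u.1 0 1 * z)) -
          (u.1 0 0 * u.1 0 1 + u.1 0 1 * u.1 0 0))]
    · show |xm m P 2 - xi u 2| ≤ _
      have : xm m P 2 - xi u 2 = (1 / 2) * (((u.1 1 0 * x + u.1 1 1 * z) * (u.1 1 0 * y + u.1 1 1 * t) +
          (u.1 1 0 * y + u.1 1 1 * t) * (u.1 1 0 * x + u.1 1 1 * z)) -
          (u.1 1 0 * u.1 1 1 + u.1 1 1 * u.1 1 0)) := by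
        rw [e2, x2, p10, p11]
        field_simp
        ring
      rw [this, abs_mul]
      have h2 : |((1 / 2) : ℝ)| = 1 / 2 := by norm_num
      rw [h2]
      nlinarith [abs_nonneg (((u.1 1 0 * x + u.1 1 1 * z) * (u.1 1 0 * y + u.1 1 1 * t) +
          (u.1 1 0 * y + u.1 1 1 * t) * (u.1 1 0 * x + u.1 1 1 * z)) -
          (u.1 1 0 * u.1 1 1 + u.1 1 1 * u.1 1 0))]

/-- nearby real numbers have nearby cubes -/
lemma floor_near {a b c w : ℝ} (hw : 0 < w) (h : |a - b| ≤ c * w) :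
    |((⌊a / w⌋ - ⌊b / w⌋ : ℤ) : ℝ)| ≤ c + 1 := by
  have h1 : |a / w - b / w| ≤ c := by
    rw [← sub_div, abs_div, abs_of_pos hw, div_le_iff₀ hw]
    exact h
  have h2 := abs_le.1 h1
  have f1 := Int.floor_le (a / w)
  have f2 := Int.lt_floor_add_one (a / w)
  have f3 := Int.floor_le (b / w)
  have f4 := Int.lt_floor_add_one (b / w)
  push_cast
  rw [abs_le]
  constructor <;> linarith [h2.1, h2.2]

lemma int_box {n : ℤ} {c : ℝ} (h : |(n : ℝ)| ≤ c) : n ∈ Finset.Icc (-⌊c⌋) ⌊c⌋ := by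
  have h1 : ((|n| : ℤ) : ℝ) ≤ c := by push_cast; exact h
  have h2 : |n| ≤ ⌊c⌋ := Int.le_floor.2 h1
  rw [Finset.mem_Icc]
  exact abs_le.1 h2

lemma card_box {c : ℝ} (hc : 0 ≤ c) : ((Finset.Icc (-⌊c⌋) ⌊c⌋).card : ℝ) ≤ 2 * c + 1 := by
  have h0 : 0 ≤ ⌊c⌋ := Int.floor_nonneg.2 hc
  rw [Int.card_Icc]
  have h1 : ((⌊c⌋ + 1 - -⌊c⌋).toNat : ℤ) = 2 * ⌊c⌋ + 1 := by
    rw [Int.toNat_of_nonneg (by linarith)]
    ring
  have h2 : (((⌊c⌋ + 1 - -⌊c⌋).toNat : ℤ) : ℝ) = 2 * (⌊c⌋ : ℝ) + 1 := by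
    rw [h1]; push_cast; ring
  have h3 : (((⌊c⌋ + 1 - -⌊c⌋).toNat : ℕ) : ℝ) = 2 * (⌊c⌋ : ℝ) + 1 := by exact_mod_cast h2
  rw [h3]
  linarith [Int.floor_le c]

lemma KK_w {w : ℝ} (hw : 0 < w) : 1 / KK w ^ 2 = w := by
  unfold KK
  rw [← Real.rpow_natCast, ← Real.rpow_mul hw.le]
  norm_num [Real.rpow_neg_one]

end

end Pool.Agent.A54.HS.OvC

namespace Pool.Agent.A54.HS

open Set
open Pool.Agent.A54.Dyn (G)
open Pool.Agent.A54.Hp

/-- **Ov** overlap of the cells. -/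
theorem stmtOv : StmtOv := by
  intro R hR
  have hR0 : 0 ≤ R := by linarith
  refine ⟨17 ^ 4 * 19 ^ 3 * R ^ 14, ?_, ?_⟩
  · have : (1 : ℝ) ≤ R ^ 14 := one_le_pow₀ hR
    nlinarith
  intro w hw hw1 C V hV c hc
  have hc0 : 0 ≤ c := by linarith
  intro i hi h m hdet hm T hT
  have hm' : (0 : ℝ) < m := by exact_mod_cast hm
  have hSw : (sy R w C V).w = w := OvC.KK_w hw
  rcases T.eq_empty_or_nonempty with rfl | ⟨t₀, ht₀⟩
  · simp only [Finset.card_empty, Nat.cast_zero]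
    positivity
  obtain ⟨P₀, hP₀⟩ : ∃ P₀, P₀ = HSL.toR h * (rp R w i).1 := ⟨_, rfl⟩
  have hP₀d : P₀.det = (m : ℝ) ^ 2 := by
    have e1 : (HSL.toR h).det = ((h.det : ℤ) : ℝ) := by
      unfold HSL.toR
      exact (Int.cast_det h).symm
    rw [hP₀, Matrix.det_mul, e1, hdet, (rp R w i).2]
    push_cast
    ring
  have toRm : ∀ a b : HSL.MZ, HSL.toR (a * b) = HSL.toR a * HSL.toR b := by
    intro a b
    unfold HSL.toR
    exact Matrix.map_mul (f := Int.castRingHom ℝ)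
  -- the data of an element of `T`
  have main : ∀ t ∈ T, (∀ a b, |(HSL.toR t.2 * P₀) a b| ≤ 2 * R * c * m) ∧
      (∀ a, |OvC.xm m (HSL.toR t.2 * P₀) a - xi (rp R w t.1) a| ≤ 8 * R ^ 2 * c ^ 2 * w) ∧
      (∀ a, t.1 a = ⌊xi (rp R w t.1) a / w⌋) := by
    intro t ht
    obtain ⟨hj, hg, hr⟩ := hT t ht
    have hmem := OvC.rp_mem (hV t.1 hj)
    have hPd : (HSL.toR t.2 * P₀).det = (m : ℝ) ^ 2 := by
      have e1 : (HSL.toR t.2).det = ((t.2.det : ℤ) : ℝ) := by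
        unfold HSL.toR
        exact (Int.cast_det t.2).symm
      rw [Matrix.det_mul, e1, hg, hP₀d]
      push_cast
      ring
    have hN : HSL.Near c w m ((rp R w t.1).1.adjugate * (HSL.toR t.2 * P₀)) := by
      have := hr.2.2
      rw [hSw] at this
      unfold HSL.fr at this
      rw [hP₀, ← Matrix.mul_assoc (HSL.toR t.2), ← toRm, ← Matrix.mul_assoc]
      exact this
    obtain ⟨q1, q2⟩ := OvC.target hR0 hc0 hw.le hw1 hm' hmem.1 hPd hN
    exact ⟨q1, q2, fun a => (hmem.2 a).symm⟩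
  -- the box
  obtain ⟨N₀, hN₀⟩ : ∃ N₀, N₀ = 8 * R ^ 2 * c ^ 2 := ⟨_, rfl⟩
  obtain ⟨N₁, hN₁⟩ : ∃ N₁, N₁ = 8 * R ^ 2 * c ^ 2 + 1 := ⟨_, rfl⟩
  have hN₀0 : 0 ≤ N₀ := by rw [hN₀]; positivity
  have hN₁0 : 0 ≤ N₁ := by rw [hN₁]; positivity
  let D : Finset ((Fin 2 → Fin 2 → ℤ) × (Fin 3 → ℤ)) :=
    (Fintype.piFinset fun _ => Fintype.piFinset fun _ => Finset.Icc (-⌊N₀⌋) ⌊N₀⌋) ×ˢ
      (Fintype.piFinset fun _ => Finset.Icc (-⌊N₁⌋) ⌊N₁⌋)
  let f : (Fin 3 → ℤ) × HSL.MZ → (Fin 2 → Fin 2 → ℤ) × (Fin 3 → ℤ) := fun t =>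
    (fun a b => (t.2 * t₀.2.adjugate) a b,
      fun a => t.1 a - ⌊OvC.xm m (HSL.toR t.2 * P₀) a / w⌋)
  have hmaps : ∀ t ∈ T, f t ∈ D := by
    intro t ht
    obtain ⟨q1, q2, q3⟩ := main t ht
    obtain ⟨q1', -, -⟩ := main t₀ ht₀
    refine Finset.mem_product.2 ⟨Fintype.mem_piFinset.2 fun a => Fintype.mem_piFinset.2 fun b => ?_,
      Fintype.mem_piFinset.2 fun a => ?_⟩
    · refine OvC.int_box ?_
      show |(((t.2 * t₀.2.adjugate) a b : ℤ) : ℝ)| ≤ N₀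
      have e1 : (HSL.toR (t.2 * t₀.2.adjugate)) * ((m : ℝ) ^ 2 • (1 : HSL.MR)) =
          (HSL.toR t.2 * P₀) * (HSL.toR t₀.2 * P₀).adjugate := by
        have e2 : HSL.toR t₀.2.adjugate = (HSL.toR t₀.2).adjugate := by
          unfold HSL.toR
          exact (Int.castRingHom ℝ).map_adjugate t₀.2
        rw [Matrix.adjugate_mul_distrib, toRm, e2, Matrix.mul_assoc (HSL.toR t.2) P₀,
          ← Matrix.mul_assoc P₀, Matrix.mul_adjugate, hP₀d, Matrix.smul_mul, Matrix.one_mul,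
          Matrix.mul_smul, Matrix.mul_smul, Matrix.mul_one]
      have e3 : (((t.2 * t₀.2.adjugate) a b : ℤ) : ℝ) * (m : ℝ) ^ 2 =
          ((HSL.toR t.2 * P₀) * (HSL.toR t₀.2 * P₀).adjugate) a b := by
        rw [← e1, Matrix.mul_smul, Matrix.mul_one, Matrix.smul_apply, smul_eq_mul, mul_comm]
        rfl
      have e4 : |((HSL.toR t.2 * P₀) * (HSL.toR t₀.2 * P₀).adjugate) a b| ≤ N₀ * (m : ℝ) ^ 2 := by
        have adj : ∀ a b, |(HSL.toR t₀.2 * P₀).adjugate a b| ≤ 2 * R * c * m := by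
          intro a b
          rw [Matrix.adjugate_fin_two]
          fin_cases a <;> fin_cases b
          · exact q1' 1 1
          · show |-((HSL.toR t₀.2 * P₀) 0 1)| ≤ _
            rw [abs_neg]; exact q1' 0 1
          · show |-((HSL.toR t₀.2 * P₀) 1 0)| ≤ _
            rw [abs_neg]; exact q1' 1 0
          · exact q1' 0 0
        rw [Matrix.mul_apply, Fin.sum_univ_two]
        have pr : ∀ k, |(HSL.toR t.2 * P₀) a k * (HSL.toR t₀.2 * P₀).adjugate k b| ≤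
            (2 * R * c * m) * (2 * R * c * m) := by
          intro k
          rw [abs_mul]
          exact mul_le_mul (q1 a k) (adj k b) (abs_nonneg _) (by positivity)
        refine (abs_add_le _ _).trans ((add_le_add (pr 0) (pr 1)).trans (le_of_eq ?_))
        rw [hN₀]; ring
      rw [← e3, abs_mul, abs_of_pos (pow_pos hm' 2)] at e4
      exact le_of_mul_le_mul_right e4 (pow_pos hm' 2)
    · refine OvC.int_box ?_
      show |((t.1 a - ⌊OvC.xm m (HSL.toR t.2 * P₀) a / w⌋ : ℤ) : ℝ)| ≤ N₁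
      rw [q3 a, hN₁]
      refine OvC.floor_near hw ?_
      rw [abs_sub_comm]
      exact q2 a
  have hinj : ∀ t ∈ T, ∀ t' ∈ T, f t = f t' → t = t' := by
    intro t ht t' ht' he
    have h1 : t.2 * t₀.2.adjugate = t'.2 * t₀.2.adjugate := congrArg Prod.fst he
    have hg0 := (hT t₀ ht₀).2.1
    have h2 : t.2 = t'.2 := by
      have := congrArg (· * t₀.2) h1
      simp only [Matrix.mul_assoc, Matrix.adjugate_mul, hg0, one_smul, Matrix.mul_one] at this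
      exact this
    have h3 : ∀ a, t.1 a - ⌊OvC.xm m (HSL.toR t.2 * P₀) a / w⌋ =
        t'.1 a - ⌊OvC.xm m (HSL.toR t'.2 * P₀) a / w⌋ := fun a => congrFun (congrArg Prod.snd he) a
    refine Prod.ext (funext fun a => ?_) h2
    have := h3 a
    rw [h2] at this
    linarith
  have hcard : T.card ≤ D.card := Finset.card_le_card_of_injOn f hmaps fun t ht t' ht' => hinj t ht t' ht'
  have hD : (D.card : ℝ) ≤ (2 * N₀ + 1) ^ 4 * (2 * N₁ + 1) ^ 3 := by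
    have b0 := OvC.card_box hN₀0
    have b1 := OvC.card_box hN₁0
    have eD : D.card = ((Finset.Icc (-⌊N₀⌋) ⌊N₀⌋).card) ^ 4 * ((Finset.Icc (-⌊N₁⌋) ⌊N₁⌋).card) ^ 3 := by
      simp only [D, Finset.card_product, Fintype.card_piFinset, Finset.prod_const, Finset.card_univ,
        Fintype.card_fin]
      ring
    rw [eD]
    push_cast
    exact mul_le_mul (pow_le_pow_left₀ (Nat.cast_nonneg _) b0 4) (pow_le_pow_left₀ (Nat.cast_nonneg _) b1 3)
      (by positivity) (by positivity)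
  have hone : 1 ≤ R ^ 2 * c ^ 2 := by
    have := one_le_pow₀ hR (n := 2)
    have := one_le_pow₀ hc (n := 2)
    nlinarith
  have s0 : 2 * N₀ + 1 ≤ 17 * (R ^ 2 * c ^ 2) := by rw [hN₀]; linarith
  have s1 : 2 * N₁ + 1 ≤ 19 * (R ^ 2 * c ^ 2) := by rw [hN₁]; linarith
  calc (T.card : ℝ) ≤ (D.card : ℝ) := by exact_mod_cast hcard
    _ ≤ (2 * N₀ + 1) ^ 4 * (2 * N₁ + 1) ^ 3 := hD
    _ ≤ (17 * (R ^ 2 * c ^ 2)) ^ 4 * (19 * (R ^ 2 * c ^ 2)) ^ 3 :=
        mul_le_mul (pow_le_pow_left₀ (by positivity) s0 4) (pow_le_pow_left₀ (by positivity) s1 3)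
          (by positivity) (by positivity)
    _ = 17 ^ 4 * 19 ^ 3 * R ^ 14 * c ^ 14 := by ring

end Pool.Agent.A54.HS
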