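import Pool.Agent.Lib.HS.C.Cel
import Pool.Agent.Lib.HS.SpecDi
import Pool.Agent.Lib.HS.Che
import Pool.Agent.Lib.HS.L.Spec
import Pool.Agent.Lib.HS.F.SpecT
import Pool.Agent.Lib.MP_a54f13_nt.Hp.SpecU

/-!
# Package `HS`, part C: from a critical level of cells to the system of cells of part L

Architect: helper36. Every module: file `Pool/Agent/Lib/HS/C/<Name>.lean` importing `Pool.Agent.Lib.HS.C.Spec`, private names in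
`namespace Pool.Agent.A54.HS.<Name>C`, final theorem `Pool.Agent.A54.HS.stmt<Name> : Stmt<Name>`; the Props named under `uses` are
hypotheses of the theorem, in this order. `w` is the width of the cells, `K = KK w = w^(-1/2)`. Everything proved in `Hp/Main.lean`
(`pTot`, `pUnf`, `pIsU`, `stmtTub`, `stmtNm`, `stmtNuL`, ...) may be imported and used.
`G = SL(2, ℝ)`; `g i j` is `g.1 i j`; `HSL.fr x.1 y.1 s = cj y x s` (the inverse of `y` is its adjugate).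
-/

set_option autoImplicit false

namespace Pool.Agent.A54.HS

open MeasureTheory Filter Topology Set
open scoped ContDiff ComplexConjugate UpperHalfPlane MatrixGroups ENNReal
open Pool.Agent.A54.Dyn (G fl base ze io mk4 dom)
open Pool.Agent.A54.Av (Mat NonSc)
open Pool.Agent.A54.Hp Pool.Agent.A54.Hp.Hk Pool.Agent.A54.Hp.A2M

noncomputable section

/-- the basic large parameter -/
def KK (w : ℝ) : ℝ := w ^ (-(1 / 2) : ℝ)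

/-- the ratio of the two step sizes -/
def thk (k : ℕ) : ℝ := 1 / (100000 * (k : ℝ))

open Classical in
/-- the representative of a cell -/
def rp (R w : ℝ) (z : Fin 3 → ℤ) : G := if h : (cel R w z).Nonempty then h.some else 1

/-- the system of the cells `V` -/
def sy (R w C : ℝ) (V : Finset (Fin 3 → ℤ)) : HSL.Sys where
  ι := Fin 3 → ℤ
  V := V
  g := fun z => (rp R w z).1
  K := KK w
  C := C
  R := R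

/-- a critical level: cells of mass about `A`, total mass at least `K^(-σ/4)`, outside the torus set and the cusp set -/
structure Lvl (k : ℕ) (Φ : G → ℂ) (R w C A : ℝ) (V : Finset (Fin 3 → ℤ)) : Prop where
  hA : 0 < A
  ms1 : ∀ z ∈ V, ENNReal.ofReal A ≤ ms Φ (cel R w z)
  ms2 : ∀ z ∈ V, ms Φ (cel R w z) ≤ ENNReal.ofReal (2 * A)
  lo : KK w ^ (-(HSL.sg k (thk k) / 4)) ≤ A * (V.card : ℝ)
  hi : (V.card : ℝ) ≤ KK w ^ (2 + HSL.sg k (thk k))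
  gt : ∀ z ∈ V, (sy R w C V).GoodT z
  gz : ∀ z ∈ V, (sy R w C V).GoodZ (1 / 100) z

/-- **Mc** matched cells give returns (uses nothing; `Hp.stmtTub`). Proof. `z`, `z'` are nonempty, `x = rp R w z`, `y = rp R w z'`, `g ∈ cel z`, `nm s * g ∈ cel z'`.
`cel z ⊆ Tb R (xi x) w` (`cel_sub_Tb`), so by `stmtTub` `g⁻¹ * x` and `y⁻¹ * (nm s * g)` have diagonal entries `≤ C` and off-diagonal entries `≤ C w`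
in absolute value. `fr x y s = y⁻¹ s x = n · (y⁻¹ (nm s g)) (g⁻¹ x)` (the entries of `nm s` are `s i j / √(det s) = s i j / n`); the product has diagonal
entries `≤ 2C²` and off-diagonal entries `≤ 2 C² w`. -/
def StmtMc : Prop := ∀ R : ℝ, 1 ≤ R → ∃ C : ℝ, 1 ≤ C ∧ ∀ w : ℝ, 0 < w → w ≤ 1 → ∀ (z z' : Fin 3 → ℤ) (s : Mat) (n : ℕ),
  0 < n → s.det = (n : ℤ) ^ 2 → Mt R w (nm s) z z' → HSL.Ret C w (rp R w z).1 (rp R w z').1 n s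

/-- **Ov** overlap (uses nothing). Proof. `y := nm h * rp i ∈ G`. For `t = (j, γ) ∈ T` let `u_j = rp j ∈ Om R` and `e = u_j⁻¹ γ y`: its entries are those of the frame
divided by `m`, so the diagonal ones are `≤ C'` and the off-diagonal ones `≤ C' w`. `γ y = u_j e` has entries `≤ 2 R C'`. For two elements `γ γ'⁻¹ = (γ y) (γ' y)⁻¹` has
entries `≤ 8 R² C'²`: for one fixed `γ'` there are at most `(2 ⌊8 R² C'²⌋ + 1)^4` values of `γ`. For given `γ`: `|xi (u_j e) i - xi u_j i| ≤ C'' w`, `C'' = c R² C'²` (`X(xi (u e)) = u X(xi e) u⁻¹`,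
`xi e - (1,0,0) = (2 e₀₁ e₁₀, -e₀₀ e₀₁, e₁₀ e₁₁)`; or expand: `xi (u e) i - xi u i` is a combination of `e₀₁ e₁₀`, `e₀₀ e₀₁`, `e₁₀ e₁₁` with coefficients `≤ 4 R²`), so
`|cub w u_j i - cub w (γ y) i| ≤ C'' + 1` and `j = cub w u_j` takes at most `(2 C'' + 3)^3` values. Total `≤ B C'^14`. -/
def StmtOv : Prop := ∀ R : ℝ, 1 ≤ R → ∃ B : ℝ, 1 ≤ B ∧ ∀ w : ℝ, 0 < w → w ≤ 1 →
  ∀ (C : ℝ) (V : Finset (Fin 3 → ℤ)), (∀ z ∈ V, (cel R w z).Nonempty) → ∀ C' : ℝ, 1 ≤ C' → (sy R w C V).Ovl C' (B * C' ^ 14)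

/-- **Gt** cells near a rational geodesic lie in the torus set (uses nothing; `Hp.stmtTub`). Proof. `x = rp R w z`, `v ≠ 0` integral, `tr v = 0`, `f = x⁻¹ v x` with `|f₀₀| = |f₁₁| ≤ K^(199/200)`,
`|f₀₁|, |f₁₀| ≤ K^(-201/200)`. `n = (2 v₀₀, v₀₁, v₁₀) ≠ 0`; `v = x f x⁻¹`, so `|n_i| ≤ 16 R² K^(199/200)`. Let `x' ∈ cel z`, `e = x⁻¹ x'` with diagonal entries `≤ C`, off-diagonal entries `≤ C w`
(`stmtTub`). `oa x' n = (x'⁻¹ v x')₀₁ = (e⁻¹ f e)₀₁ = e₁₁ e₀₁ (f₀₀ - f₁₁) + e₁₁² f₀₁ - e₀₁² f₁₀`, at most `C' (w K^(199/200) + K^(-201/200)) = 2 C' K^(-201/200)` (`w = K^(-2)`); `ob` similarly. -/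
def StmtGt : Prop := ∀ R : ℝ, 1 ≤ R → ∃ C : ℝ, 1 ≤ C ∧ ∀ w : ℝ, 0 < w → w ≤ 1 → ∀ (C₁ : ℝ) (V : Finset (Fin 3 → ℤ)) (z : Fin 3 → ℤ),
  (cel R w z).Nonempty → ¬ (sy R w C₁ V).GoodT z →
    cel R w z ⊆ HSF.TT R (C * KK w ^ (199 / 200 : ℝ)) (C * KK w ^ (-(201 / 200) : ℝ))

/-- **Gz** cells near a cusp (uses nothing; `Hp.stmtTub`). Proof. `x = rp R w z`, `q ≠ 0`, `|q|² ≤ K^(1/100)`, `(α, β) = x⁻¹ q`, `|α β| < K^(-99/100)`; `|α|, |β| ≤ 2 R K^(1/200)`, and one of them is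
`≤ K^(-99/200)`. For `x' ∈ cel z`: `x'⁻¹ q = e⁻¹ (α, β)`, `e = x⁻¹ x'`, `e⁻¹ = (e₁₁, -e₀₁; -e₁₀, e₀₀)`, diagonal `≤ C`, off-diagonal `≤ C w = C K^(-2)` (`stmtTub`): the small coordinate becomes
`≤ C K^(-99/200) + 2 R C K^(-2) K^(1/200) ≤ C' K^(-99/200)`, the other one `≤ C' K^(1/200)`. The coordinates of `x'⁻¹ q` are those in the definition of `Zc`. -/
def StmtGz : Prop := ∀ R : ℝ, 1 ≤ R → ∃ C : ℝ, 1 ≤ C ∧ ∀ w : ℝ, 0 < w → w ≤ 1 → ∀ (C₁ : ℝ) (V : Finset (Fin 3 → ℤ)) (z : Fin 3 → ℤ),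
  (cel R w z).Nonempty → ¬ (sy R w C₁ V).GoodZ (1 / 100) z →
    cel R w z ⊆ Zc R (C * KK w ^ (-(99 / 200) : ℝ)) (C * KK w ^ (1 / 200 : ℝ))

/-- **Ms** the masses of the two sets (uses nothing; `Hp.pIsU` and helper83's torus theorem `stmtFTT2` = `StmtFTT` with `H δ ≤ w^(1/220)`). Proof. (1) `StmtIsU` with `η K = C² K^(-98/200) = C² w^(49/200)`:
`ms ≤ C'' w^(49/800) ≤ w^(1/100)`. (2) `H = C K^(199/200) ≤ w^(-2)`, `δ = C K^(-201/200)`, `H δ = C² w^(1/200) ≤ w^(1/220)` for small `w`; `ms ≤ w^(1/1400)`. -/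
def StmtMs : Prop := ∀ K₀ R C : ℝ, 2 ≤ K₀ → 1 ≤ R → 1 ≤ C → ∃ w₁ : ℝ, 0 < w₁ ∧ w₁ ≤ 1 ∧ ∀ (l : ℕ → ℝ) (Φ : G → ℂ), HE l Φ → Csp Φ →
  ∀ w : ℝ, 0 < w → w ≤ w₁ → ¬ GdK K₀ l w →
    ms Φ (Zc R (C * KK w ^ (-(99 / 200) : ℝ)) (C * KK w ^ (1 / 200 : ℝ))) ≤ ENNReal.ofReal (w ^ (1 / 100 : ℝ)) ∧
    ms Φ (HSF.TT R (C * KK w ^ (199 / 200 : ℝ)) (C * KK w ^ (-(201 / 200) : ℝ))) ≤ ENNReal.ofReal (w ^ (1 / 1400 : ℝ))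

/-- **Rt** returns of level `≤ 4^k K` (uses `HSL.S_CLA`, `HSL.S_CS`). Proof. `S_CLA` with `ε = 1/100`, `B = K^(1/100)`: `#(prs H) ≤ K^(2+2/100) + 2 #H`; `S_CS`: `(#H)² ≤ #V #(prs H)
≤ K^(2+1/100) (K^(2+2/100) + 2 #H)`. If `2 #H ≤ K^(2+2/100)` we are done, otherwise `(#H)² ≤ 4 K^(2+1/100) #H`, `#H ≤ 4 K^(2+1/100) ≤ K^(9/4)`. -/
def StmtRt : Prop := ∀ (k : ℕ) (C R : ℝ), 1 ≤ k → 1 ≤ C → 1 ≤ R → ∃ K1 : ℝ, ∀ S : HSL.Sys, S.C = C → S.R = R → K1 ≤ S.K →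
  S.Unim → S.Ovl ((2 * C) ^ k) (S.K ^ (1 / 100 : ℝ)) → (S.V.card : ℝ) ≤ S.K ^ (2 + 1 / 100 : ℝ) →
  ∀ i ∈ S.V, S.GoodT i → ∀ H : Finset (S.ι × HSL.MZ), HSL.Hk S k (4 ^ k * S.K) i H → (H.card : ℝ) ≤ S.K ^ (9 / 4 : ℝ)

/-- the conclusion of `Mc` for the constant `C` -/
def McC (R C : ℝ) : Prop := ∀ w : ℝ, 0 < w → w ≤ 1 → ∀ (z z' : Fin 3 → ℤ) (s : Mat) (n : ℕ),
  0 < n → s.det = (n : ℤ) ^ 2 → Mt R w (nm s) z z' → HSL.Ret C w (rp R w z).1 (rp R w z').1 n s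

/-- **T1** the distance two term (uses `Dst`, `Rt`, `Ov`). `σ = sg k (thk k)`. Proof. `U = celU R w W`, `ms U = ∑ ≥ A #W ≥ A #V K^(-θ) ≥ K^(-2θ)`, `θ = thk k`; `#Q ≥ M^(99/100)`, `M ≥ K^(1/(2k))`, so `#Q^(k-1) ms U ≥ K^(99(k-1)/(200k) - 2θ)` is larger than every constant.
`Dst` with `k - 1`: `T₁^(2(k-1)) ≤ C ∑_{s ∈ Lv2 Q (2(k-1))} Dd Φ U (nm s)`. For `s` in this set `det s = n²`, `n` a product of `2(k-1)` primes of `Q`, `n ≤ (2M)^(2(k-1)) ≤ 4^k K` (`M ≤ K^((1+θ)/(2k))`). `Dd_le_card` (with `A` replaced by `2A`):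
the sum is at most `2A` times the number of triples `(s, z, z')`, `z, z' ∈ W`, `Mt R w (nm s) z z'`; for every `z` the pairs `(z', s)` form a set `H` as in `Rt` (`McC`, `Ret C ≤ Ret ((2C)^k)`; `Prim s` from `Pr s`; at most `2k` prime factors: `sm`, `cardFactors`): at most
`K^(9/4)` of them (finite subsets: all finite subsets have at most `K^(9/4)` elements, so the set is finite). So `T₁^(2(k-1)) ≤ C 2A #W K^(9/4) ≤ C' K^(9/4)` (`A #W ≤ ms U ≤ C_T`: `pTot`), and `M^(5/2 · 2(k-1)) ≥ K^(5(k-1)/(2k)) ≥ C' K^(9/4)` because `k ≥ 251`. `Ov`: `B (2C)^(14k) ≤ K^(1/100)`. -/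
def StmtT1 : Prop := ∀ (k : ℕ) (R C : ℝ), 251 ≤ k → 1 ≤ R → 1 ≤ C → McC R C → ∃ w₁ : ℝ, 0 < w₁ ∧ w₁ ≤ 1 ∧
  ∀ (l : ℕ → ℝ) (Φ : G → ℂ), HE l Φ → ∀ w A : ℝ, 0 < w → w ≤ w₁ → ∀ V : Finset (Fin 3 → ℤ), Lvl k Φ R w C A V →
  ∀ M : ℝ, KK w ^ (1 / (2 * (k : ℝ))) ≤ M → M ≤ KK w ^ ((1 + thk k) / (2 * (k : ℝ))) → ∀ Q : Finset ℕ, Q ⊆ Pm M → (∀ p ∈ Q, |l p| ≤ 1 / 2) →
  M ^ (99 / 100 : ℝ) ≤ (Q.card : ℝ) → ∀ W : Finset (Fin 3 → ℤ), W ⊆ V → (V.card : ℝ) ≤ KK w ^ thk k * (W.card : ℝ) →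
    ∑' s : Mat, (Lv2 Q 1).indicator (fun s => Dd Φ (celU R w W) (nm s)) s ≤ ENNReal.ofReal (M ^ (5 / 2 : ℝ))

/-- **AIc** the amplifier inequality for the system (uses `AId`, `T1`, `Bd`). `θ = thk k`, `σ = sg k θ = θ/(200 k²)`. Proof. Let `Q ⊆ Bad l M`, `#Bad ≤ 4k #Q`, `#V ≤ K^θ #W`, `U = celU R w W`. `Bd` with `κ = σ/16` (`¬ GdC (1/10000) l M`): `#Bad ≥ M^(1-κ)`, so `#Q ≥ M^(1-κ)/(4k) ≥ M^(99/100)`.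
`Du` = the `u ∈ ℤ²`, `u ≠ 0`, `|u_a| ≤ K^(2θ)` (finite, `#Du ≤ 9 K^(4θ)`, `8 #Du ≤ M`; `p ∤ u` because `K^(2θ) < M < p`). `AId` with `B = Du`: `|l p| < M^(-1/10000)`, `l(p)² ≤ K^(-1/(10000k)) = K^(-10θ)`, so `C #Du l(p)² ≤ 9 C K^(-6θ) ≤ K^(-2θ) ≤ A #W ≤ ms U`. In its conclusion
`C (1/M) T₁ ≤ C M^(3/2)` (`T1`) and `C #Q ms U ≤ C' M` (`pTot`, `#Q ≤ 2M`) are each at most a third of `(#Q)² ms(U)² ≥ M^(198/100) K^(-4θ)`; so `(#Q)² ms(U)² ≤ 3 C M^(-2) ∑_{s ∈ Ld Q Du} Dd Φ U (nm s)`. As in `T1` (`Dd_le_card`) the sum is at most `2A #T`,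
`T` = the set of all `(z, z', p, q, s)`, `z, z' ∈ W`, `p, q ∈ Q`, `s ∈ Ld` with this pair `(p, q)` (for `s ∈ Ld` choose `p, q`), `Mt R w (nm s) z z'`: a finite set, since `|s_ij| ≤ 4R² · 2C p q` by `McC` and `s = y (frame) x⁻¹`. `McC` with `n = p q` gives `Step`; `dk Du p s` is `Dir (K^(2θ)) p s`.
So `#T ≥ (#Q)² ms(U)² M²/(6 C A) ≥ M^(4-2κ) A (#W)²/(96 k² C)`, and `K^σ #V #T ≥ K^(σ - σ/4) M^(-2κ) M⁴ (#W)²/(96 k² C) ≥ M⁴ (#W)²` (`lo`; `M ≤ K`). -/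
def StmtAIc : Prop := ∀ (k : ℕ) (R C : ℝ), 251 ≤ k → 1 ≤ R → 1 ≤ C → McC R C → ∃ w₁ : ℝ, 0 < w₁ ∧ w₁ ≤ 1 ∧
  ∀ (l : ℕ → ℝ) (Φ : G → ℂ), HE l Φ → ∀ w A : ℝ, 0 < w → w ≤ w₁ → ∀ V : Finset (Fin 3 → ℤ), Lvl k Φ R w C A V →
  ∀ M : ℝ, KK w ^ (1 / (2 * (k : ℝ))) ≤ M → M ≤ KK w ^ ((1 + thk k) / (2 * (k : ℝ))) → ¬ GdC (1 / 10000) l M →
    k ≤ (Bad l M).card ∧ (∀ p ∈ Bad l M, p.Prime ∧ M ≤ (p : ℝ) ∧ (p : ℝ) ≤ 2 * M) ∧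
    (sy R w C V).AI M (Bad l M) (4 * k) (thk k) (KK w ^ (2 * thk k)) (HSL.sg k (thk k))

/-- **Hyp** the system of cells of a critical level (uses `Mc`, `Ov`, `Gt`, `Gz`, `Ms`, `AIc`). Proof. `C` from `Mc`, `θ = thk k`, `σ = sg k θ`, `c = σ/100`. `V` = the cells of `V₀` with `GoodT`, `GoodZ`. The others lie in the two sets of `Ms` (`K₀ = k`), of mass `≤ 2 w^(1/1400)`; cells are disjoint of mass `≥ A`, so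
`A #(V₀ \ V) ≤ 2 w^(1/1400) ≤ w^(2c)/2 ≤ A #V₀/2` (`w^(1+c) ≤ A² #V₀`, `A ≤ w^(1-c)` give `A #V₀ ≥ w^(2c)`; `A ≥ w^(1+c)`). So `A #V ≥ w^(2c)/2 ≥ K^(-σ/4)`, `#V ≥ w^(2c)/(2A) ≥ w^(-1+3c)/2 ≥ K^(2-σ)`, `#V ≤ C_T/A ≤ C_T w^(-1-c) ≤ K^(2+σ)` (`pTot`). `Ov` with `C' = (2C)^k`, `B C'^14 ≤ K^σ`.
The pools: `Bad l M`, `M = K^(1/(2k)) = w^(-1/(4k))` and `M = K^((1+θ)/(2k))`, in `[w^(-1/(1000k)), w^(-1/1000)]` because `k ≥ 251`: both blocks are bad. -/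
def StmtHyp : Prop := ∀ k : ℕ, 251 ≤ k → ∃ c : ℝ, 0 < c ∧ c ≤ 1 / 1000 ∧ ∀ R : ℝ, 1 ≤ R → ∃ C B : ℝ, 1 ≤ C ∧ 1 ≤ B ∧ ∀ K₁ : ℝ,
  ∃ w₁ : ℝ, 0 < w₁ ∧ w₁ ≤ 1 ∧ ∀ (l : ℕ → ℝ) (Φ : G → ℂ), HE l Φ → Csp Φ → ∀ w : ℝ, 0 < w → w ≤ w₁ → ¬ GdK k l w →
  ∀ A : ℝ, w ^ (1 + c) ≤ A → A ≤ w ^ (1 - c) → ∀ V₀ : Finset (Fin 3 → ℤ),
  (∀ z ∈ V₀, ENNReal.ofReal A ≤ ms Φ (cel R w z) ∧ ms Φ (cel R w z) ≤ ENNReal.ofReal (2 * A)) →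
  w ^ (1 + c) ≤ A ^ 2 * (V₀.card : ℝ) → ∃ V : Finset (Fin 3 → ℤ), V ⊆ V₀ ∧ K₁ ≤ (sy R w C V).K ∧
    HSL.Hyp (sy R w C V) k (thk k) ∧ ∀ C' : ℝ, 1 ≤ C' → (sy R w C V).Ovl C' (B * C' ^ 14)

end

end Pool.Agent.A54.HS
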