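import Pool.Agent.Lib.HS.C.Spec
import Pool.Agent.Lib.HS.Top

/-!
# Package `HS`, part C: the assembly of Plan L: bands + critical levels + contradiction give `StmtHS`

helper36.
-/

set_option autoImplicit false

namespace Pool.Agent.A54.HS

open MeasureTheory Filter Topology Set
open scoped ContDiff ComplexConjugate UpperHalfPlane MatrixGroups ENNReal
open Pool.Agent.A54.Dyn (G fl base ze io mk4 dom)
open Pool.Agent.A54.Av (Mat NonSc)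
open Pool.Agent.A54.Hp Pool.Agent.A54.Hp.Hk Pool.Agent.A54.Hp.A2M

noncomputable section

/-- **Bands** heavy cells carry little correlation (the same as proved in `HS/Bd/Top.lean`) -/
def StmtBands : Prop := ∀ b : ℝ, 0 < b → ∃ c K₀ : ℝ, 0 < c ∧ 1 ≤ K₀ ∧ ∀ R : ℝ, 1 ≤ R → ∃ w₁ : ℝ, 0 < w₁ ∧ w₁ ≤ 1 ∧
  ∀ (l : ℕ → ℝ) (Φ : G → ℂ), HE l Φ → Csp Φ → ∀ w : ℝ, 0 < w → w ≤ w₁ → ¬ GdK K₀ l w →
  ∀ A : ℝ, w ^ (1 - b) ≤ A → ∀ V₀ : Finset (Fin 3 → ℤ),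
    (∀ z ∈ V₀, ENNReal.ofReal A ≤ ms Φ (cel R w z) ∧ ms Φ (cel R w z) ≤ ENNReal.ofReal (2 * A)) →
      A ^ 2 * (V₀.card : ℝ) ≤ w ^ (1 + c)

/-- the conclusion of `HSL.zCon` -/
def ConL : Prop := ∃ k0 : ℕ, ∀ (k : ℕ) (C R B : ℝ), k0 ≤ k → 1 ≤ k → 1 ≤ C → 1 ≤ R → 1 ≤ B →
    ∃ K1 : ℝ, ∀ S : HSL.Sys, S.C = C → S.R = R → K1 ≤ S.K →
      HSL.Hyp S k (1 / (100000 * (k : ℝ))) → (∀ C' : ℝ, 1 ≤ C' → S.Ovl C' (B * C' ^ 14)) → False

namespace TopC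

/-- asymptotic statements -/
lemma small {p : ℝ → Prop} (h : ∀ᶠ x in atTop, p x) : ∃ w₁ : ℝ, 0 < w₁ ∧ w₁ ≤ 1 ∧ ∀ w : ℝ, 0 < w → w ≤ w₁ → p w⁻¹ := by
  obtain ⟨X, hX⟩ := eventually_atTop.1 h
  refine ⟨(max X 1)⁻¹, by positivity, inv_le_one_of_one_le₀ (le_max_right _ _), fun w hw hw1 => hX _ ?_⟩
  refine (le_max_left X 1).trans ?_
  rw [le_inv_comm₀ (by positivity) hw]
  exact hw1

lemma GdK_mono {K K' : ℝ} (hK : 1 ≤ K) (h : K ≤ K') {l : ℕ → ℝ} {w : ℝ} (hw : 0 < w) (hw1 : w ≤ 1)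
    (hG : ¬ GdK K' l w) : ¬ GdK K l w := by
  rintro ⟨M, h1, h2, h3⟩
  refine hG ⟨M, le_trans ?_ h1, h2, h3⟩
  refine Real.rpow_le_rpow_of_exponent_ge hw hw1 ?_
  have h4 : 1 / (1000 * K') ≤ 1 / (1000 * K) :=
    one_div_le_one_div_of_le (by linarith) (by linarith)
  linarith

/-- the levels: if every level from `a` to `b` has `A² #V ≤ η` then the sum of the squares is small -/
lemma levels (Φ : G → ℂ) (R w a b η : ℝ) (ha : 0 < a) (hb : 0 ≤ b) (hη : 0 ≤ η) (n : ℕ) (hn : b / a < 2 ^ (n + 1))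
    (hT : ms Φ (Om R) ≤ ENNReal.ofReal b)
    (h : ∀ A : ℝ, a ≤ A → ∀ V : Finset (Fin 3 → ℤ),
      (∀ z ∈ V, ENNReal.ofReal A ≤ ms Φ (cel R w z) ∧ ms Φ (cel R w z) ≤ ENNReal.ofReal (2 * A)) →
        A ^ 2 * (V.card : ℝ) ≤ η) :
    ∑' z, ms Φ (cel R w z) ^ 2 ≤ ENNReal.ofReal (a * b + 4 * (n + 1) * η) := by
  classical
  have hfin : ∑' z, ms Φ (cel R w z) ≠ ⊤ := by
    rw [ms_cel_sum]
    exact ne_top_of_le_ne_top ENNReal.ofReal_ne_top hT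
  set f : (Fin 3 → ℤ) → ℝ≥0∞ := fun z => ms Φ (cel R w z) with hf
  have hfb : ∀ z, f z ≤ ENNReal.ofReal b := fun z => (ms_mono Φ (cel_sub R w z)).trans hT
  -- the levels
  have hAj : ∀ j : ℕ, (0 : ℝ) < 2 ^ j * a := fun j => by positivity
  have hfi : ∀ j : ℕ, {z | ENNReal.ofReal (2 ^ j * a) ≤ f z}.Finite := fun j =>
    ENNReal.finite_const_le_of_tsum_ne_top hfin (ENNReal.ofReal_pos.2 (hAj j)).ne'
  set L : ℕ → Finset (Fin 3 → ℤ) := fun j =>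
    (hfi j).toFinset.filter (fun z => f z < ENNReal.ofReal (2 * (2 ^ j * a))) with hL
  have hmem : ∀ j z, z ∈ L j ↔ ENNReal.ofReal (2 ^ j * a) ≤ f z ∧ f z < ENNReal.ofReal (2 * (2 ^ j * a)) := by
    intro j z
    rw [hL]
    simp only [Finset.mem_filter, Set.Finite.mem_toFinset]
    rfl
  have hcard : ∀ j, (2 ^ j * a) ^ 2 * ((L j).card : ℝ) ≤ η := by
    intro j
    refine h _ ?_ (L j) fun z hz => ?_
    · have : (1 : ℝ) ≤ 2 ^ j := one_le_pow₀ (by norm_num)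
      nlinarith
    · rw [hmem] at hz
      exact ⟨hz.1, hz.2.le⟩
  have hpt : ∀ z, f z ^ 2 ≤ ENNReal.ofReal a * f z +
      ∑ j ∈ Finset.range (n + 1), (if z ∈ L j then ENNReal.ofReal ((2 * (2 ^ j * a)) ^ 2) else 0) := by
    intro z
    rcases LevM.pick ha hn (hfb z) with h1 | ⟨j, hj, h1, h2⟩
    · refine le_trans ?_ le_self_add
      rw [sq]
      gcongr
    · refine le_trans ?_ le_add_self
      refine le_trans ?_ (Finset.single_le_sum (f := fun j => if z ∈ L j then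
        ENNReal.ofReal ((2 * (2 ^ j * a)) ^ 2) else 0) (fun _ _ => bot_le) hj)
      rw [if_pos ((hmem j z).2 ⟨h1, h2⟩), ENNReal.ofReal_pow (by positivity)]
      gcongr
  have hLsum : ∀ j, ∑' z, (if z ∈ L j then ENNReal.ofReal ((2 * (2 ^ j * a)) ^ 2) else 0) ≤
      ENNReal.ofReal (4 * η) := by
    intro j
    rw [tsum_eq_sum (s := L j) (fun z hz => if_neg hz), Finset.sum_congr rfl (fun z hz => if_pos hz),
      Finset.sum_const, nsmul_eq_mul, ← ENNReal.ofReal_natCast, ← ENNReal.ofReal_mul (by positivity)]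
    refine ENNReal.ofReal_le_ofReal ?_
    have := hcard j
    nlinarith
  calc ∑' z, f z ^ 2 ≤ ∑' z, (ENNReal.ofReal a * f z +
        ∑ j ∈ Finset.range (n + 1), (if z ∈ L j then ENNReal.ofReal ((2 * (2 ^ j * a)) ^ 2) else 0)) :=
        ENNReal.tsum_le_tsum hpt
    _ = ENNReal.ofReal a * ms Φ (Om R) +
        ∑ j ∈ Finset.range (n + 1), ∑' z, (if z ∈ L j then ENNReal.ofReal ((2 * (2 ^ j * a)) ^ 2) else 0) := by
        rw [ENNReal.tsum_add, ENNReal.tsum_mul_left, hf, ms_cel_sum,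
          Summable.tsum_finsetSum fun _ _ => ENNReal.summable]
    _ ≤ ENNReal.ofReal a * ENNReal.ofReal b + ∑ j ∈ Finset.range (n + 1), ENNReal.ofReal (4 * η) := by
        gcongr with j hj
        exact hLsum j
    _ ≤ _ := by
        rw [Finset.sum_const, Finset.card_range, nsmul_eq_mul, ← ENNReal.ofReal_mul ha.le,
          ← ENNReal.ofReal_natCast, ← ENNReal.ofReal_mul (by positivity)]
        rw [← ENNReal.ofReal_add (by positivity) (by positivity)]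
        refine ENNReal.ofReal_le_ofReal ?_
        push_cast
        linarith

/-- many levels -/
lemma many (D s ε : ℝ) (hε : 0 < ε) : ∀ᶠ x : ℝ in atTop, D * x ^ s < 2 ^ (⌈x ^ ε⌉₊ + 1) := by
  have h1 : Tendsto (fun x : ℝ => x ^ ε) atTop atTop := tendsto_rpow_atTop hε
  have h2 := ((isLittleO_rpow_exp_pos_mul_atTop (s / ε) (Real.log_pos one_lt_two)).bound
    (show (0 : ℝ) < (|D| + 1)⁻¹ by positivity))
  have h3 := h1.eventually h2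
  filter_upwards [h3, eventually_gt_atTop 0] with x hx hx0
  rw [← Real.rpow_mul hx0.le, mul_div_cancel₀ _ hε.ne', Real.norm_of_nonneg (Real.rpow_nonneg hx0.le _),
    Real.norm_of_nonneg (Real.exp_pos _).le] at hx
  have h4 : Real.exp (Real.log 2 * x ^ ε) = 2 ^ (x ^ ε) :=
    (Real.rpow_def_of_pos (show (0 : ℝ) < 2 by norm_num) (x ^ ε)).symm
  rw [h4] at hx
  have h5 : (2 : ℝ) ^ (x ^ ε) ≤ 2 ^ ⌈x ^ ε⌉₊ := by
    rw [← Real.rpow_natCast]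
    exact Real.rpow_le_rpow_of_exponent_le (by norm_num) (Nat.le_ceil _)
  have h6 : D * x ^ s ≤ (|D| + 1) * x ^ s :=
    mul_le_mul_of_nonneg_right (by have := le_abs_self D; linarith) (Real.rpow_nonneg hx0.le _)
  have h7 : (|D| + 1) * x ^ s ≤ 2 ^ (x ^ ε) := by
    have h8 : (0 : ℝ) < |D| + 1 := by positivity
    calc (|D| + 1) * x ^ s ≤ (|D| + 1) * ((|D| + 1)⁻¹ * 2 ^ (x ^ ε)) := mul_le_mul_of_nonneg_left hx h8.le
      _ = 2 ^ (x ^ ε) := by rw [← mul_assoc, mul_inv_cancel₀ h8.ne', one_mul]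
  have h9 : (0 : ℝ) < 2 ^ ⌈x ^ ε⌉₊ := by positivity
  calc D * x ^ s ≤ 2 ^ ⌈x ^ ε⌉₊ := h6.trans (h7.trans h5)
    _ < 2 ^ (⌈x ^ ε⌉₊ + 1) := by rw [pow_succ]; linarith

end TopC

/-- **the assembly of Plan L** -/
theorem stmtHS_of (hTot : StmtTot) (hB : StmtBands) (hH : StmtHyp) (hC : ConL) : StmtHS := by
  obtain ⟨k0, hk0⟩ := hC
  set k : ℕ := max k0 251 with hk
  have hk251 : 251 ≤ k := le_max_right _ _
  have hkR : (251 : ℝ) ≤ k := by exact_mod_cast hk251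
  obtain ⟨c₁, hc₁, hc₁', hH⟩ := hH k hk251
  obtain ⟨c₂, K₂, hc₂, hK₂, hB⟩ := hB c₁ hc₁
  set c₀ : ℝ := min c₁ c₂ with hc₀
  have hc₀0 : 0 < c₀ := lt_min hc₁ hc₂
  have hc01 : c₀ ≤ c₁ := min_le_left _ _
  have hc02 : c₀ ≤ c₂ := min_le_right _ _
  refine ⟨c₀ / 2, max k K₂, by positivity, by linarith, le_max_of_le_right hK₂, ?_⟩
  intro R hR
  obtain ⟨C, B, hC1, hB1, hH⟩ := hH R hR
  obtain ⟨w₂, hw₂, hw₂1, hB⟩ := hB R hR
  obtain ⟨CT, hCT, hTot⟩ := hTot R hR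
  obtain ⟨K₁, hK₁⟩ := hk0 k C R B (le_max_left _ _) (by omega) hC1 hR hB1
  obtain ⟨w₁, hw₁, hw₁1, hH⟩ := hH K₁
  set ε : ℝ := c₀ / 4 with hε
  have hε0 : 0 < ε := by positivity
  have e1 := TopC.many (CT + 1) (1 + c₁) ε hε0
  have e2 : ∀ᶠ x : ℝ in atTop, 27 * (CT + 13) * x ^ (-(1 + c₀) + ε) ≤ x ^ (-(1 + c₀ / 2)) := by
    have h1 : ∀ᶠ x : ℝ in atTop, 27 * (CT + 13) ≤ x ^ (c₀ / 4) :=
      (tendsto_rpow_atTop (by positivity)).eventually_ge_atTop _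
    filter_upwards [h1, eventually_gt_atTop 0] with x hx hx0
    calc 27 * (CT + 13) * x ^ (-(1 + c₀) + ε) ≤ x ^ (c₀ / 4) * x ^ (-(1 + c₀) + ε) :=
          mul_le_mul_of_nonneg_right hx (Real.rpow_nonneg hx0.le _)
      _ = x ^ (-(1 + c₀ / 2)) := by
          rw [← Real.rpow_add hx0]
          congr 1
          rw [hε]; ring
  have e3 : ∀ᶠ x : ℝ in atTop, 1 ≤ x ^ ε :=
    (tendsto_rpow_atTop hε0).eventually_ge_atTop _
  obtain ⟨w₃, hw₃, hw₃1, h3⟩ := TopC.small (e1.and (e2.and e3))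
  refine ⟨min (min w₁ w₂) w₃, lt_min (lt_min hw₁ hw₂) hw₃, ?_⟩
  intro l Φ hE hcu w hw hww hG
  have hwa : w ≤ w₁ := hww.trans ((min_le_left _ _).trans (min_le_left _ _))
  have hwb : w ≤ w₂ := hww.trans ((min_le_left _ _).trans (min_le_right _ _))
  have hwc : w ≤ w₃ := hww.trans (min_le_right _ _)
  have hw1 : w ≤ 1 := hwa.trans hw₁1
  obtain ⟨f1, f2, f3⟩ := h3 w hw hwc
  have hGk : ¬ GdK k l w := TopC.GdK_mono (by linarith) (le_max_left _ _) hw hw1 hG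
  have hG2 : ¬ GdK K₂ l w := TopC.GdK_mono hK₂ (le_max_right _ _) hw hw1 hG
  have hpow : ∀ a b : ℝ, b ≤ a → w ^ a ≤ w ^ b := fun a b h =>
    Real.rpow_le_rpow_of_exponent_ge hw hw1 h
  -- all levels
  have hlev : ∀ A : ℝ, w ^ (1 + c₁) ≤ A → ∀ V : Finset (Fin 3 → ℤ),
      (∀ z ∈ V, ENNReal.ofReal A ≤ ms Φ (cel R w z) ∧ ms Φ (cel R w z) ≤ ENNReal.ofReal (2 * A)) →
        A ^ 2 * (V.card : ℝ) ≤ w ^ (1 + c₀) := by
    intro A hA V hV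
    rcases le_total (w ^ (1 - c₁)) A with h | h
    · exact (hB l Φ hE hcu w hw hwb hG2 A h V hV).trans (hpow _ _ (by linarith))
    · by_contra hcon
      rw [not_le] at hcon
      have hcon' : w ^ (1 + c₁) ≤ A ^ 2 * (V.card : ℝ) := (hpow _ _ (by linarith)).trans hcon.le
      obtain ⟨V', _, hK, hHyp, hOv⟩ := hH l Φ hE hcu w hw hwa hGk A hA h V hV hcon'
      exact hK₁ (sy R w C V') rfl rfl hK hHyp hOv
  -- the sum
  have hinv : ∀ s : ℝ, w⁻¹ ^ s = w ^ (-s) := fun s => by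
    rw [Real.inv_rpow hw.le, Real.rpow_neg hw.le]
  have ha : 0 < w ^ (1 + c₁) := Real.rpow_pos_of_pos hw _
  have hn : CT / w ^ (1 + c₁) < 2 ^ (⌈w⁻¹ ^ ε⌉₊ + 1) := by
    refine lt_of_le_of_lt ?_ f1
    rw [hinv, Real.rpow_neg hw.le, div_eq_mul_inv]
    exact mul_le_mul_of_nonneg_right (by linarith) (by positivity)
  have hsum := TopC.levels Φ R w (w ^ (1 + c₁)) CT (w ^ (1 + c₀)) ha hCT (by positivity) _ hn
    (hTot l Φ hE) hlev
  refine (Cw_le_cel Φ hE.cont hw).trans ?_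
  calc 27 * ∑' z, ms Φ (cel R w z) ^ 2
      ≤ ENNReal.ofReal 27 * ENNReal.ofReal (w ^ (1 + c₁) * CT + 4 * ((⌈w⁻¹ ^ ε⌉₊ : ℝ) + 1) * w ^ (1 + c₀)) := by
        rw [show (27 : ℝ≥0∞) = ENNReal.ofReal 27 by norm_num]
        gcongr
    _ = ENNReal.ofReal (27 * (w ^ (1 + c₁) * CT + 4 * ((⌈w⁻¹ ^ ε⌉₊ : ℝ) + 1) * w ^ (1 + c₀))) := by
        rw [← ENNReal.ofReal_mul (by norm_num)]
    _ ≤ ENNReal.ofReal (w ^ (1 + c₀ / 2)) := by
        refine ENNReal.ofReal_le_ofReal ?_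
        have g1 : (⌈w⁻¹ ^ ε⌉₊ : ℝ) ≤ w⁻¹ ^ ε + 1 :=
          (Nat.ceil_lt_add_one (Real.rpow_nonneg (by positivity) _)).le
        have g2 : w ^ (1 + c₁) ≤ w ^ (1 + c₀) := hpow _ _ (by linarith)
        have g3 : 0 < w ^ (1 + c₀) := Real.rpow_pos_of_pos hw _
        have g4 : w⁻¹ ^ (-(1 + c₀) + ε) = w⁻¹ ^ ε * w ^ (1 + c₀) := by
          rw [Real.rpow_add (by positivity), mul_comm, hinv (-(1 + c₀)), neg_neg]
        have g5 : w⁻¹ ^ (-(1 + c₀ / 2)) = w ^ (1 + c₀ / 2) := by rw [hinv, neg_neg]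
        rw [g4, g5] at f2
        refine le_trans ?_ f2
        have g6 : w ^ (1 + c₁) * CT ≤ CT * (w⁻¹ ^ ε * w ^ (1 + c₀)) := by
          have : w ^ (1 + c₀) ≤ w⁻¹ ^ ε * w ^ (1 + c₀) := le_mul_of_one_le_left g3.le f3
          nlinarith
        have g7 : 4 * ((⌈w⁻¹ ^ ε⌉₊ : ℝ) + 1) * w ^ (1 + c₀) ≤ 12 * (w⁻¹ ^ ε * w ^ (1 + c₀)) := by
          have : 4 * ((⌈w⁻¹ ^ ε⌉₊ : ℝ) + 1) ≤ 12 * w⁻¹ ^ ε := by linarith
          nlinarith
        have g8 : 0 ≤ w⁻¹ ^ ε * w ^ (1 + c₀) := by positivity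
        nlinarith

end

end Pool.Agent.A54.HS
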