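import Pool.Agent.Lib.HS.C.Spec
import Pool.Agent.Lib.HS.Cel3
import Pool.Agent.Lib.MP_a54f13_nt.Hp.Nm
import Pool.Agent.Lib.MP_a54f13_nt.Hp.NuLeft

/-!
# Package `HS`, part C: the amplifier inequality for the system of cells (`StmtAIc`)
-/

set_option autoImplicit false

namespace Pool.Agent.A54.HS

open MeasureTheory Filter Topology Set
open scoped ContDiff ComplexConjugate UpperHalfPlane MatrixGroups ENNReal
open Pool.Agent.A54.Dyn (G fl base ze io mk4 dom)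
open Pool.Agent.A54.Av (Mat NonSc)
open Pool.Agent.A54.Hp Pool.Agent.A54.Hp.Hk Pool.Agent.A54.Hp.A2M

noncomputable section

namespace AIcC

lemma Un_cel (R w : ℝ) (W : Finset (Fin 3 → ℤ)) : Un (cel R w) W = celU R w W := by
  ext g
  unfold Un celU
  simp only [mem_iUnion, mem_cel, exists_prop, mem_ofPred_eq]
  exact ⟨fun ⟨z, h1, h2, h3⟩ => ⟨h2, h3 ▸ h1⟩, fun ⟨h1, h2⟩ => ⟨_, h2, h1, rfl⟩⟩

lemma KK_pos {w : ℝ} (hw : 0 < w) : 0 < KK w := Real.rpow_pos_of_pos hw _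

lemma KK_ge {w K₁ : ℝ} (hw : 0 < w) (hK : 0 < K₁) (h : w ≤ K₁ ^ (-2 : ℝ)) : K₁ ≤ KK w := by
  unfold KK
  have h1 : (K₁ ^ (-2 : ℝ)) ^ (-(1 / 2) : ℝ) ≤ w ^ (-(1 / 2) : ℝ) :=
    Real.rpow_le_rpow_of_nonpos hw h (by norm_num)
  rw [← Real.rpow_mul hK.le] at h1
  have e : (-2 : ℝ) * (-(1 / 2)) = 1 := by norm_num
  rw [e, Real.rpow_one] at h1
  exact h1

lemma sy_w {w : ℝ} (hw : 0 < w) (R C : ℝ) (V : Finset (Fin 3 → ℤ)) : (sy R w C V).w = w := by
  unfold HSL.Sys.w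
  change 1 / (KK w) ^ 2 = w
  unfold KK
  rw [← Real.rpow_natCast, ← Real.rpow_mul hw.le]
  norm_num
  rw [Real.rpow_neg_one, inv_inv]

end AIcC

open AIcC in
theorem stmtAIc (h1 : StmtAId) (h2 : StmtT1) (h3 : StmtBd) : StmtAIc := by
  intro k R C hk hR hC hMc
  obtain ⟨C₀, hC₀1, hC₀⟩ := aic stmtNuL h1 R hR
  obtain ⟨w₂, hw₂0, hw₂1, hT1⟩ := h2 k R C hk hR hC hMc
  have hkR : (251 : ℝ) ≤ k := by exact_mod_cast hk
  have hk0 : (0 : ℝ) < k := by linarith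
  -- the parameters
  obtain ⟨θ, hθ⟩ : ∃ θ : ℝ, θ = thk k := ⟨_, rfl⟩
  have hθe : θ = 1 / (100000 * (k : ℝ)) := hθ
  have hθ0 : 0 < θ := by rw [hθe]; positivity
  have hkθ : k * θ = 1 / 100000 := by
    rw [hθe]
    field_simp
  have hθ1 : θ ≤ 1 / 100000 := by
    rw [hθe]
    refine div_le_div_of_nonneg_left (by norm_num) (by norm_num) ?_
    nlinarith
  have hu : 1 / (2 * (k : ℝ)) = 50000 * θ := by
    rw [hθe]
    field_simp
    norm_num
  obtain ⟨σ, hσ⟩ : ∃ σ : ℝ, σ = HSL.sg k (thk k) := ⟨_, rfl⟩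
  have hσe : σ = θ / (200 * (k : ℝ) ^ 2) := by rw [hσ, ← hθ]; rfl
  have hσ0 : 0 < σ := by rw [hσe]; positivity
  have hσθ : σ ≤ θ := by
    rw [hσe, div_le_iff₀ (by positivity)]
    have : (1 : ℝ) ≤ 200 * (k : ℝ) ^ 2 := by nlinarith
    nlinarith
  obtain ⟨M₀, hM₀1, hM₀⟩ := h3 (σ / 16) (by positivity)
  -- the size of `K`
  obtain ⟨X, hX⟩ : ∃ X : ℝ, X = 48 * (k : ℝ) ^ 2 * C₀ + 72 + 9 * C₀ + 12 * k * C₀ + k + M₀ := ⟨_, rfl⟩
  have hX1 : 1 ≤ X := by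
    rw [hX]
    have : 0 ≤ 48 * (k : ℝ) ^ 2 * C₀ := by positivity
    have : 0 ≤ 12 * (k : ℝ) * C₀ := by positivity
    linarith
  have hXa : 48 * (k : ℝ) ^ 2 * C₀ ≤ X := by
    rw [hX]
    have : 0 ≤ 12 * (k : ℝ) * C₀ := by positivity
    linarith
  have hXb : 72 ≤ X := by
    rw [hX]
    have : 0 ≤ 48 * (k : ℝ) ^ 2 * C₀ := by positivity
    have : 0 ≤ 12 * (k : ℝ) * C₀ := by positivity
    linarith
  have hXc : 9 * C₀ ≤ X := by
    rw [hX]
    have : 0 ≤ 48 * (k : ℝ) ^ 2 * C₀ := by positivity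
    have : 0 ≤ 12 * (k : ℝ) * C₀ := by positivity
    linarith
  have hXd : 12 * k * C₀ ≤ X := by
    rw [hX]
    have : 0 ≤ 48 * (k : ℝ) ^ 2 * C₀ := by positivity
    linarith
  have hXe : (k : ℝ) ≤ X := by
    rw [hX]
    have : 0 ≤ 48 * (k : ℝ) ^ 2 * C₀ := by positivity
    have : 0 ≤ 12 * (k : ℝ) * C₀ := by positivity
    linarith
  have hXf : M₀ ≤ X := by
    rw [hX]
    have : 0 ≤ 48 * (k : ℝ) ^ 2 * C₀ := by positivity
    have : 0 ≤ 12 * (k : ℝ) * C₀ := by positivity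
    linarith
  set K₁ : ℝ := X ^ (2 / σ) with hK₁
  have hK₁1 : 1 ≤ K₁ := Real.one_le_rpow hX1 (by positivity)
  refine ⟨min w₂ (K₁ ^ (-2 : ℝ)), lt_min hw₂0 (Real.rpow_pos_of_pos (by linarith) _),
    (min_le_left _ _).trans hw₂1, ?_⟩
  intro l Φ hE w A hw hww V hV M hM1 hM2 hG
  have hwa : w ≤ w₂ := hww.trans (min_le_left _ _)
  have hwb : w ≤ K₁ ^ (-2 : ℝ) := hww.trans (min_le_right _ _)
  have hw1 : w ≤ 1 := hwa.trans hw₂1
  obtain ⟨K, hK⟩ : ∃ K : ℝ, K = KK w := ⟨_, rfl⟩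
  have hKge : K₁ ≤ K := by rw [hK]; exact KK_ge hw (by linarith) hwb
  have hK1 : 1 ≤ K := hK₁1.trans hKge
  have hK0 : 0 < K := by linarith
  have hXK : X ≤ K ^ (σ / 2) := by
    have e1 : K₁ ^ (σ / 2) = X := by
      rw [hK₁, ← Real.rpow_mul (by linarith)]
      have : 2 / σ * (σ / 2) = 1 := by
        field_simp
      rw [this, Real.rpow_one]
    rw [← e1]
    exact Real.rpow_le_rpow (by linarith) hKge (by positivity)
  have hmono : ∀ {a b : ℝ}, a ≤ b → K ^ a ≤ K ^ b := fun h => Real.rpow_le_rpow_of_exponent_le hK1 h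
  have hpos : ∀ a : ℝ, 0 < K ^ a := fun a => Real.rpow_pos_of_pos hK0 a
  rw [hu, ← hK] at hM1
  have hM2' : M ≤ K := by
    rw [← hK, ← hθ] at hM2
    refine hM2.trans ?_
    conv_rhs => rw [← Real.rpow_one K]
    refine hmono ?_
    rw [div_le_one (by positivity)]
    linarith
  have hM1' : 1 ≤ M := (Real.one_le_rpow hK1 (by positivity)).trans hM1
  have hM0 : 0 < M := by linarith
  have hMX : M₀ ≤ M := by
    refine hXf.trans (hXK.trans ((hmono ?_).trans hM1))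
    linarith
  obtain ⟨hb1, hb2⟩ := hM₀ l M hMX hG
  obtain ⟨b, hb⟩ : ∃ b : ℝ, b = ((Bad l M).card : ℝ) := ⟨_, rfl⟩
  rw [← hb] at hb1
  -- lower bound for powers of `M`
  have hMlow : ∀ a : ℝ, 0 ≤ a → K ^ (50000 * θ * a) ≤ M ^ a := by
    intro a ha
    rw [Real.rpow_mul hK0.le]
    exact Real.rpow_le_rpow (hpos _).le hM1 ha
  have hMe : ∀ {a b : ℝ}, a ≤ b → M ^ a ≤ M ^ b := fun h => Real.rpow_le_rpow_of_exponent_le hM1' h
  have hbK : K ^ (25000 * θ) ≤ b := by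
    refine le_trans ?_ ((hMe (show (1 / 2 : ℝ) ≤ 1 - σ / 16 by linarith)).trans hb1)
    refine le_trans (le_of_eq ?_) (hMlow (1 / 2) (by norm_num))
    congr 1
    ring
  have hb0 : 0 < b := lt_of_lt_of_le (hpos _) hbK
  have hBP : Bad l M ⊆ Pm M := by
    unfold Bad
    exact Finset.filter_subset _ _
  have hPp : ∀ p ∈ Pm M, p.Prime ∧ M < (p : ℝ) ∧ (p : ℝ) ≤ 2 * M := by
    intro p hp
    unfold Pm at hp
    rw [Finset.mem_filter, Finset.mem_Ioc] at hp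
    exact ⟨hp.2, (Nat.floor_lt hM0.le).1 hp.1.1, (Nat.le_floor_iff (by linarith)).1 hp.1.2⟩
  -- the mass
  obtain ⟨v, hv⟩ : ∃ v : ℝ, v = (V.card : ℝ) := ⟨_, rfl⟩
  have hlo : K ^ (-(σ / 4)) ≤ A * v := by
    have := hV.lo
    rw [← hK, ← hσ, ← hv] at this
    exact this
  have hA := hV.hA
  have hAv : 0 < A * v := lt_of_lt_of_le (hpos _) hlo
  have hv0 : 0 < v := by
    by_contra h
    rw [not_lt] at h
    nlinarith
  have hVc : 0 < V.card := by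
    have : (0 : ℝ) < V.card := by rw [← hv]; exact hv0
    exact_mod_cast this
  have hlo' : K ^ (-θ) ≤ A * v := (hmono (by linarith)).trans hlo
  refine ⟨?_, fun p hp => ⟨(hPp p (hBP hp)).1, (hPp p (hBP hp)).2.1.le, (hPp p (hBP hp)).2.2⟩, ?_⟩
  · have : (k : ℝ) ≤ ((Bad l M).card : ℝ) := by
      rw [← hb]
      refine hXe.trans (hXK.trans ((hmono ?_).trans hbK))
      linarith
    exact_mod_cast this
  -- the family of cells
  have hCF : CelF Φ R A (cel R w) V := by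
    refine ⟨fun z hz => ⟨meas_cel R w z, cel_sub R w z, hV.ms1 z hz, hV.ms2 z hz⟩, ?_⟩
    intro z _ z' _ h
    exact cel_disj R w h
  have hmc : ∀ i ∈ (sy R w C V).V, ∀ j ∈ (sy R w C V).V, ∀ (m : ℕ) (s : Mat), 0 < m → s.det = (m : ℤ) ^ 2 →
      (∃ x ∈ cel R w i, nm s * x ∈ cel R w j) →
      HSL.Ret (sy R w C V).C (sy R w C V).w ((sy R w C V).g i) ((sy R w C V).g j) m s := by
    intro i _ j _ m s hm hs hex
    rw [sy_w hw]
    exact hMc w hw hw1 i j s m hm hs hex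
  have hT := hT1 l Φ hE w A hw hwa V hV M (by rw [hu, ← hK]; exact hM1) hM2 (Bad l M) hBP hb2 (by
    rw [← hb]
    exact (hMe (by linarith)).trans hb1) V (Finset.Subset.refl _) (by
    have h4 : (1 : ℝ) ≤ KK w ^ thk k := by
      rw [← hK, ← hθ]
      exact Real.one_le_rpow hK1 hθ0.le
    have h5 : (0 : ℝ) ≤ V.card := by positivity
    nlinarith)
  have hσc : HSL.sg k (thk k) = σ := hσ.symm
  have hθc : thk k = θ := hθ.symm
  rw [hσc, hθc]
  refine AI_of stmtNm hR hC₀1 hC₀ hE (sy R w C V) (cel R w) hA hCF hmc (t := M ^ (5 / 2 : ℝ) / A) hM1'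
    (by omega) (show 1 ≤ KK w from hK ▸ hK1) (Real.one_le_rpow (hK ▸ hK1) (by positivity)) hBP
    (by positivity) hVc ?_ ?_ ?_ ?_ ?_ ?_
  · -- n1
    intro p hp
    refine ⟨hb2 p hp, ?_⟩
    change C₀ * (9 * (KK w ^ (2 * θ)) ^ 2) * l p ^ 2 * KK w ^ θ ≤ A * (V.card : ℝ)
    rw [← hK, ← hv]
    have h4 : |l p| ≤ K ^ (-(5 * θ)) := by
      have h5 : |l p| < M ^ (-(1 / 10000) : ℝ) := by
        unfold Bad at hp
        exact (Finset.mem_filter.1 hp).2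
      refine h5.le.trans ?_
      have h6 : M ^ (-(1 / 10000) : ℝ) ≤ (K ^ (50000 * θ)) ^ (-(1 / 10000) : ℝ) :=
        Real.rpow_le_rpow_of_nonpos (hpos _) hM1 (by norm_num)
      refine h6.trans (le_of_eq ?_)
      rw [← Real.rpow_mul hK0.le]
      congr 1
      ring
    have h5 : l p ^ 2 ≤ K ^ (-(10 * θ)) := by
      rw [← sq_abs]
      calc |l p| ^ 2 ≤ (K ^ (-(5 * θ))) ^ 2 := pow_le_pow_left₀ (abs_nonneg _) h4 2
        _ = _ := by
          rw [← Real.rpow_natCast, ← Real.rpow_mul hK0.le]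
          congr 1
          push_cast
          ring
    have e1 : (K ^ (2 * θ)) ^ 2 = K ^ (4 * θ) := by
      rw [← Real.rpow_natCast, ← Real.rpow_mul hK0.le]
      congr 1
      push_cast
      ring
    rw [e1]
    calc C₀ * (9 * K ^ (4 * θ)) * l p ^ 2 * K ^ θ ≤ C₀ * (9 * K ^ (4 * θ)) * K ^ (-(10 * θ)) * K ^ θ := by
          refine mul_le_mul_of_nonneg_right (mul_le_mul_of_nonneg_left h5 (by positivity)) (hpos _).le
      _ = 9 * C₀ * (K ^ (4 * θ) * K ^ (-(10 * θ)) * K ^ θ) := by ring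
      _ = 9 * C₀ * K ^ (-(5 * θ)) := by
          rw [← Real.rpow_add hK0, ← Real.rpow_add hK0]
          congr 2
          ring
      _ ≤ K ^ (σ / 2) * K ^ (-(5 * θ)) := mul_le_mul_of_nonneg_right (hXc.trans hXK) (hpos _).le
      _ = K ^ (σ / 2 + -(5 * θ)) := (Real.rpow_add hK0 _ _).symm
      _ ≤ K ^ (-θ) := hmono (by linarith)
      _ ≤ A * v := hlo'
  · -- n3
    change 8 * (9 * (KK w ^ (2 * θ)) ^ 2) ≤ M
    rw [← hK]
    have e1 : (K ^ (2 * θ)) ^ 2 = K ^ (4 * θ) := by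
      rw [← Real.rpow_natCast, ← Real.rpow_mul hK0.le]
      congr 1
      push_cast
      ring
    rw [e1]
    calc 8 * (9 * K ^ (4 * θ)) = 72 * K ^ (4 * θ) := by ring
      _ ≤ K ^ (σ / 2) * K ^ (4 * θ) := mul_le_mul_of_nonneg_right (hXb.trans hXK) (hpos _).le
      _ = K ^ (σ / 2 + 4 * θ) := (Real.rpow_add hK0 _ _).symm
      _ ≤ K ^ (50000 * θ) := hmono (by linarith)
      _ ≤ M := hM1
  · -- n4
    have e1 : A * (M ^ (5 / 2 : ℝ) / A) = M ^ (5 / 2 : ℝ) := by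
      field_simp
    rw [e1]
    change ∑' s : Mat, (Lv2 (Bad l M) 1).indicator (fun s => Dd Φ (Un (cel R w) V) (nm s)) s ≤ _
    rw [Un_cel]
    exact hT
  · -- n5
    change 3 * C₀ * (M ^ (5 / 2 : ℝ) / A) * ((4 * k : ℕ) : ℝ) ^ 2 * (KK w ^ θ) ^ 2 ≤
      M * ((Bad l M).card : ℝ) ^ 2 * A * (V.card : ℝ) ^ 2
    rw [← hK, ← hv, ← hb]
    push_cast
    have e1 : (K ^ θ) ^ 2 = K ^ (2 * θ) := by
      rw [← Real.rpow_natCast, ← Real.rpow_mul hK0.le]
      congr 1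
      push_cast
      ring
    rw [e1]
    have s1 : 48 * (k : ℝ) ^ 2 * C₀ * (M ^ (5 / 2 : ℝ) * K ^ (2 * θ)) ≤ M * b ^ 2 * (A * v) ^ 2 := by
      have s2 : M ^ (2 - σ / 8) ≤ b ^ 2 := by
        calc M ^ (2 - σ / 8) = (M ^ (1 - σ / 16)) ^ 2 := by
              rw [← Real.rpow_natCast, ← Real.rpow_mul hM0.le]
              congr 1
              push_cast
              ring
          _ ≤ b ^ 2 := pow_le_pow_left₀ (by positivity) hb1 2
      have s3 : K ^ (-(σ / 2)) ≤ (A * v) ^ 2 := by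
        calc K ^ (-(σ / 2)) = (K ^ (-(σ / 4))) ^ 2 := by
              rw [← Real.rpow_natCast, ← Real.rpow_mul hK0.le]
              congr 1
              push_cast
              ring
          _ ≤ _ := pow_le_pow_left₀ (hpos _).le hlo 2
      have s4 : M * (M ^ (2 - σ / 8) * K ^ (-(σ / 2))) ≤ M * b ^ 2 * (A * v) ^ 2 := by
        calc M * (M ^ (2 - σ / 8) * K ^ (-(σ / 2))) ≤ M * (b ^ 2 * (A * v) ^ 2) :=
              mul_le_mul_of_nonneg_left (mul_le_mul s2 s3 (hpos _).le (by positivity)) hM0.le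
          _ = _ := by ring
      refine le_trans ?_ s4
      have s5 : M * M ^ (2 - σ / 8) = M ^ (5 / 2 : ℝ) * M ^ (1 / 2 - σ / 8) := by
        rw [← Real.rpow_add hM0]
        conv_lhs => rw [← Real.rpow_one M, ← Real.rpow_mul hM0.le, one_mul, ← Real.rpow_add hM0]
        congr 1
        ring
      have s6 : K ^ (12500 * θ) ≤ M ^ (1 / 2 - σ / 8) := by
        refine le_trans ?_ (hMe (show (1 / 4 : ℝ) ≤ 1 / 2 - σ / 8 by linarith))
        refine le_trans (le_of_eq ?_) (hMlow (1 / 4) (by norm_num))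
        congr 1
        ring
      calc 48 * (k : ℝ) ^ 2 * C₀ * (M ^ (5 / 2 : ℝ) * K ^ (2 * θ))
          ≤ K ^ (σ / 2) * (M ^ (5 / 2 : ℝ) * K ^ (2 * θ)) :=
            mul_le_mul_of_nonneg_right (hXa.trans hXK) (by positivity)
        _ = M ^ (5 / 2 : ℝ) * (K ^ (σ / 2) * K ^ (2 * θ)) := by ring
        _ = M ^ (5 / 2 : ℝ) * K ^ (σ / 2 + 2 * θ) := by rw [← Real.rpow_add hK0]
        _ ≤ M ^ (5 / 2 : ℝ) * K ^ (12500 * θ + -(σ / 2)) :=
            mul_le_mul_of_nonneg_left (hmono (by linarith)) (by positivity)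
        _ = M ^ (5 / 2 : ℝ) * (K ^ (12500 * θ) * K ^ (-(σ / 2))) := by rw [← Real.rpow_add hK0]
        _ ≤ M ^ (5 / 2 : ℝ) * (M ^ (1 / 2 - σ / 8) * K ^ (-(σ / 2))) :=
            mul_le_mul_of_nonneg_left (mul_le_mul_of_nonneg_right s6 (hpos _).le) (by positivity)
        _ = (M ^ (5 / 2 : ℝ) * M ^ (1 / 2 - σ / 8)) * K ^ (-(σ / 2)) := by ring
        _ = _ := by rw [← s5]; ring
    have e2 : 3 * C₀ * (M ^ (5 / 2 : ℝ) / A) * (4 * (k : ℝ)) ^ 2 * K ^ (2 * θ) =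
        (48 * (k : ℝ) ^ 2 * C₀ * (M ^ (5 / 2 : ℝ) * K ^ (2 * θ))) / A := by
      field_simp
      ring
    rw [e2, div_le_iff₀ hA]
    refine s1.trans (le_of_eq ?_)
    ring
  · -- n6
    change 3 * C₀ * ((4 * k : ℕ) : ℝ) * KK w ^ θ ≤ ((Bad l M).card : ℝ) * A * (V.card : ℝ)
    rw [← hK, ← hv, ← hb]
    push_cast
    calc 3 * C₀ * (4 * (k : ℝ)) * K ^ θ = 12 * k * C₀ * K ^ θ := by ring
      _ ≤ K ^ (σ / 2) * K ^ θ := mul_le_mul_of_nonneg_right (hXd.trans hXK) (hpos _).le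
      _ = K ^ (σ / 2 + θ) := (Real.rpow_add hK0 _ _).symm
      _ ≤ K ^ (25000 * θ + -θ) := hmono (by linarith)
      _ = K ^ (25000 * θ) * K ^ (-θ) := Real.rpow_add hK0 _ _
      _ ≤ b * (A * v) := mul_le_mul hbK hlo' (hpos _).le hb0.le
      _ = _ := by ring
  · -- n7
    change 3 * C₀ * ((4 * k : ℕ) : ℝ) ^ 2 * M ^ 2 ≤
      KK w ^ σ * A * (V.card : ℝ) * ((Bad l M).card : ℝ) ^ 2
    rw [← hK, ← hv, ← hb]
    push_cast
    have s2 : M ^ (2 - σ / 8) ≤ b ^ 2 := by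
      calc M ^ (2 - σ / 8) = (M ^ (1 - σ / 16)) ^ 2 := by
            rw [← Real.rpow_natCast, ← Real.rpow_mul hM0.le]
            congr 1
            push_cast
            ring
        _ ≤ b ^ 2 := pow_le_pow_left₀ (by positivity) hb1 2
    have s3 : M ^ 2 = M ^ (2 - σ / 8) * M ^ (σ / 8) := by
      rw [← Real.rpow_add hM0, ← Real.rpow_natCast]
      congr 1
      push_cast
      ring
    have s4 : M ^ (σ / 8) ≤ K ^ (σ / 8) := Real.rpow_le_rpow hM0.le hM2' (by positivity)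
    calc 3 * C₀ * (4 * (k : ℝ)) ^ 2 * M ^ 2 = 48 * (k : ℝ) ^ 2 * C₀ * M ^ 2 := by ring
      _ ≤ K ^ (σ / 2) * M ^ 2 := mul_le_mul_of_nonneg_right (hXa.trans hXK) (by positivity)
      _ = (K ^ (σ / 2) * M ^ (σ / 8)) * M ^ (2 - σ / 8) := by
          rw [s3]
          ring
      _ ≤ (K ^ (σ / 2) * K ^ (σ / 8)) * M ^ (2 - σ / 8) := by
          refine mul_le_mul_of_nonneg_right (mul_le_mul_of_nonneg_left s4 (hpos _).le) (by positivity)
      _ = K ^ (σ / 2 + σ / 8) * M ^ (2 - σ / 8) := by rw [← Real.rpow_add hK0]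
      _ ≤ K ^ (σ + -(σ / 4)) * b ^ 2 :=
          mul_le_mul (hmono (by linarith)) s2 (by positivity) (hpos _).le
      _ = K ^ σ * K ^ (-(σ / 4)) * b ^ 2 := by rw [← Real.rpow_add hK0]
      _ ≤ K ^ σ * (A * v) * b ^ 2 := by
          refine mul_le_mul_of_nonneg_right (mul_le_mul_of_nonneg_left hlo (hpos _).le) (by positivity)
      _ = _ := by ring

end

end Pool.Agent.A54.HS
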