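import Pool.Agent.Lib.MP_a54f13_nt.Hp.Lev

/-!
# Package `HS`, part C: cells of width `w`

helper36. The box `Om R` is cut into cells: the sets of points whose geodesic `xi` lies in a given cube of side `w`.
-/

set_option autoImplicit false

namespace Pool.Agent.A54.HS

open MeasureTheory Filter Topology Set
open scoped ContDiff ComplexConjugate UpperHalfPlane MatrixGroups ENNReal
open Pool.Agent.A54.Dyn (G fl base ze io mk4 dom)
open Pool.Agent.A54.Av (Mat NonSc)
open Pool.Agent.A54.Hp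

noncomputable section

/-- the cell of `z`: the points of the box whose geodesic lies in the cube `z` of side `w` -/
def cel (R w : ℝ) (z : Fin 3 → ℤ) : Set G := {g | g ∈ Om R ∧ ∀ i, ⌊xi g i / w⌋ = z i}

/-- the cube of a point -/
def cub (w : ℝ) (g : G) : Fin 3 → ℤ := fun i => ⌊xi g i / w⌋

/-- the union of the cells of `W` -/
def celU (R w : ℝ) (W : Finset (Fin 3 → ℤ)) : Set G := {g | g ∈ Om R ∧ cub w g ∈ W}

lemma mem_cel {R w : ℝ} {z : Fin 3 → ℤ} {g : G} : g ∈ cel R w z ↔ g ∈ Om R ∧ cub w g = z := by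
  unfold cel cub
  rw [mem_ofPred_eq, funext_iff]

lemma cel_sub (R w : ℝ) (z : Fin 3 → ℤ) : cel R w z ⊆ Om R := fun _ h => h.1

lemma measurable_cub (w : ℝ) : Measurable (cub w) := by
  refine measurable_pi_iff.2 fun i => ?_
  exact Int.measurable_floor.comp ((LevM.continuous_xi i).measurable.div_const w)

lemma meas_Om (R : ℝ) : MeasurableSet (Om R) := (LevM.isClosed_Om R).measurableSet

lemma meas_cel (R w : ℝ) (z : Fin 3 → ℤ) : MeasurableSet (cel R w z) := by
  have e : cel R w z = Om R ∩ cub w ⁻¹' {z} := by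
    ext g
    rw [mem_cel]
    rfl
  rw [e]
  exact (meas_Om R).inter (measurable_cub w (measurableSet_singleton z))

lemma meas_celU (R w : ℝ) (W : Finset (Fin 3 → ℤ)) : MeasurableSet (celU R w W) := by
  have e : celU R w W = Om R ∩ cub w ⁻¹' (W : Set (Fin 3 → ℤ)) := by
    ext g
    rfl
  rw [e]
  exact (meas_Om R).inter (measurable_cub w W.measurableSet)

lemma celU_sub (R w : ℝ) (W : Finset (Fin 3 → ℤ)) : celU R w W ⊆ Om R := fun _ h => h.1

lemma cel_disj (R w : ℝ) : Pairwise (Function.onFun Disjoint (cel R w)) := by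
  intro z z' hz
  refine Set.disjoint_left.2 fun g h h' => hz ?_
  rw [mem_cel] at h h'
  rw [← h.2, ← h'.2]

lemma iUnion_cel (R w : ℝ) : ⋃ z, cel R w z = Om R := by
  ext g
  simp only [mem_iUnion, mem_cel]
  exact ⟨fun ⟨z, h, _⟩ => h, fun h => ⟨cub w g, h, rfl⟩⟩

/-- integrals over the box are sums over the cells -/
lemma lint_cel (R w : ℝ) (F : G → ℝ≥0∞) :
    ∫⁻ g in Om R, F g ∂nu = ∑' z, ∫⁻ g in cel R w z, F g ∂nu := by
  rw [← iUnion_cel R w]
  exact lintegral_iUnion (meas_cel R w) (cel_disj R w) F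

lemma ms_cel_sum (Φ : G → ℂ) (R w : ℝ) : ∑' z, ms Φ (cel R w z) = ms Φ (Om R) :=
  (lint_cel R w _).symm

lemma ms_mono (Φ : G → ℂ) {U V : Set G} (h : U ⊆ V) : ms Φ U ≤ ms Φ V :=
  lintegral_mono_set h

/-- the mass of a union of cells -/
lemma ms_celU (Φ : G → ℂ) (R w : ℝ) (W : Finset (Fin 3 → ℤ)) :
    ms Φ (celU R w W) = ∑ z ∈ W, ms Φ (cel R w z) := by
  have e : celU R w W = ⋃ z ∈ W, cel R w z := by
    ext g
    simp only [mem_iUnion, mem_cel, exists_prop, celU, mem_ofPred_eq]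
    exact ⟨fun ⟨h1, h2⟩ => ⟨_, h2, h1, rfl⟩, fun ⟨z, h1, h2, h3⟩ => ⟨h2, h3 ▸ h1⟩⟩
  unfold ms
  rw [e]
  exact lintegral_biUnion_finset (fun z _ z' _ h => cel_disj R w h) (fun z _ => meas_cel R w z) _

/-- the 27 neighbours of `0` -/
def nbr : Finset (Fin 3 → ℤ) := Fintype.piFinset fun _ => ({-1, 0, 1} : Finset ℤ)

lemma card_nbr : nbr.card = 27 := by
  unfold nbr
  rw [Fintype.card_piFinset]
  simp

lemma floor_near {x y : ℝ} (h : |x - y| ≤ 1) : ⌊x⌋ - ⌊y⌋ ∈ ({-1, 0, 1} : Finset ℤ) := by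
  rw [abs_le] at h
  have h1 : ⌊x⌋ ≤ ⌊y⌋ + 1 := by
    rw [← Int.floor_add_one]
    exact Int.floor_le_floor (by linarith)
  have h2 : ⌊y⌋ ≤ ⌊x⌋ + 1 := by
    rw [← Int.floor_add_one]
    exact Int.floor_le_floor (by linarith)
  simp only [Finset.mem_insert, Finset.mem_singleton]
  omega

lemma cub_near {w : ℝ} (hw : 0 < w) {g g' : G} (h : ∀ i, |xi g' i - xi g i| ≤ w) :
    cub w g' - cub w g ∈ nbr := by
  unfold nbr
  rw [Fintype.mem_piFinset]
  intro i
  refine floor_near ?_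
  rw [← sub_div, abs_div, abs_of_pos hw, div_le_one hw]
  exact h i

/-- a tube centred in a cell is covered by its 27 neighbours -/
lemma Tb_cov {R w : ℝ} (hw : 0 < w) {g : G} :
    Tb R (xi g) w ⊆ ⋃ e ∈ nbr, cel R w (cub w g + e) := by
  intro g' hg'
  have h1 := cub_near hw hg'.2
  simp only [mem_iUnion]
  refine ⟨_, h1, ?_⟩
  rw [mem_cel]
  exact ⟨hg'.1, by abel⟩

/-- masses are subadditive -/
lemma ms_biUnion_le (Φ : G → ℂ) {ι : Type} (t : Finset ι) (U : ι → Set G) :
    ms Φ (⋃ i ∈ t, U i) ≤ ∑ i ∈ t, ms Φ (U i) := by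
  classical
  induction t using Finset.induction_on with
  | empty => simp [ms]
  | insert a t ha ih =>
    rw [Finset.set_biUnion_insert, Finset.sum_insert ha]
    exact (lintegral_union_le _ _ _).trans (add_le_add le_rfl ih)

lemma ms_Tb_le (Φ : G → ℂ) {R w : ℝ} (hw : 0 < w) (g : G) :
    ms Φ (Tb R (xi g) w) ≤ ∑ e ∈ nbr, ms Φ (cel R w (cub w g + e)) :=
  (ms_mono Φ (Tb_cov hw)).trans (ms_biUnion_le Φ _ _)

/-- a cell lies in the tube of width `w` centred at each of its points -/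
lemma cel_sub_Tb {R w : ℝ} (hw : 0 < w) {z : Fin 3 → ℤ} {g : G} (hg : g ∈ cel R w z) :
    cel R w z ⊆ Tb R (xi g) w := by
  intro g' hg'
  refine ⟨hg'.1, fun i => ?_⟩
  have h1 := (hg.2 i)
  have h2 := (hg'.2 i)
  have h3 : ⌊xi g' i / w⌋ = ⌊xi g i / w⌋ := h2.trans h1.symm
  have h4 := Int.abs_sub_lt_one_of_floor_eq_floor h3
  rw [← sub_div, abs_div, abs_of_pos hw, div_lt_one hw] at h4
  exact h4.le

/-- a tube of width `w` meets at most 27 cells -/
lemma card_meet {R w : ℝ} (hw : 0 < w) (ζ : Fin 3 → ℝ) (W : Finset (Fin 3 → ℤ))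
    (hW : ∀ z ∈ W, ∃ g ∈ cel R w z, g ∈ Tb R ζ w) : W.card ≤ 27 := by
  classical
  have h : W ⊆ nbr.image (fun e => (fun i => ⌊ζ i / w⌋) + e) := by
    intro z hz
    obtain ⟨g, hg, hg'⟩ := hW z hz
    rw [mem_cel] at hg
    rw [Finset.mem_image]
    refine ⟨z - fun i => ⌊ζ i / w⌋, ?_, by abel⟩
    unfold nbr
    rw [Fintype.mem_piFinset]
    intro i
    rw [← hg.2]
    refine floor_near ?_
    rw [← sub_div, abs_div, abs_of_pos hw, div_le_one hw]
    exact hg'.2 i
  exact (Finset.card_le_card h).trans (Finset.card_image_le.trans card_nbr.le)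

lemma two_mul_le (a b : ℝ≥0∞) : 2 * (a * b) ≤ a ^ 2 + b ^ 2 := by
  rcases eq_or_ne a ⊤ with rfl | ha
  · simp
  rcases eq_or_ne b ⊤ with rfl | hb
  · simp
  lift a to NNReal using ha
  lift b to NNReal using hb
  norm_cast
  rw [← NNReal.coe_le_coe]
  push_cast
  nlinarith [sq_nonneg ((a : ℝ) - b)]

lemma two_mul_le' (a b : ℝ≥0∞) : a * b ≤ 2⁻¹ * (a ^ 2 + b ^ 2) := by
  calc a * b = 2⁻¹ * (2 * (a * b)) := by
        rw [← mul_assoc, ENNReal.inv_mul_cancel (by norm_num) (by norm_num), one_mul]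
    _ ≤ _ := by gcongr; exact two_mul_le a b

/-- **the correlation is bounded by the squares of the masses of the cells** -/
theorem Cw_le_cel (Φ : G → ℂ) (hΦ : Continuous Φ) {R w : ℝ} (hw : 0 < w) :
    Cw Φ R w ≤ 27 * ∑' z, ms Φ (cel R w z) ^ 2 := by
  have hm : Measurable fun g => ‖Φ g‖ₑ ^ 2 := hΦ.measurable.enorm.pow_const 2
  have h1 : Cw Φ R w ≤ ∑' z, ∑ e ∈ nbr, ms Φ (cel R w z) * ms Φ (cel R w (z + e)) := by
    unfold Cw
    rw [lint_cel R w]
    refine ENNReal.tsum_le_tsum fun z => ?_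
    rw [← Finset.mul_sum]
    calc ∫⁻ g in cel R w z, ‖Φ g‖ₑ ^ 2 * ms Φ (Tb R (xi g) w) ∂nu
        ≤ ∫⁻ g in cel R w z, ‖Φ g‖ₑ ^ 2 * (∑ e ∈ nbr, ms Φ (cel R w (z + e))) ∂nu := by
          refine setLIntegral_mono' (meas_cel R w z) fun g hg => ?_
          have h2 := ms_Tb_le Φ (R := R) hw g
          rw [(mem_cel.1 hg).2] at h2
          gcongr
      _ = _ := by
          rw [lintegral_mul_const _ hm]
          rfl
  refine h1.trans ?_
  calc ∑' z, ∑ e ∈ nbr, ms Φ (cel R w z) * ms Φ (cel R w (z + e))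
      ≤ ∑' z, ∑ e ∈ nbr, 2⁻¹ * (ms Φ (cel R w z) ^ 2 + ms Φ (cel R w (z + e)) ^ 2) :=
        ENNReal.tsum_le_tsum fun z => Finset.sum_le_sum fun e _ => two_mul_le' _ _
    _ = ∑ e ∈ nbr, ∑' z, 2⁻¹ * (ms Φ (cel R w z) ^ 2 + ms Φ (cel R w (z + e)) ^ 2) :=
        Summable.tsum_finsetSum fun _ _ => ENNReal.summable
    _ = ∑ e ∈ nbr, ∑' z, ms Φ (cel R w z) ^ 2 := by
        refine Finset.sum_congr rfl fun e _ => ?_
        have e2 : ∑' z, ms Φ (cel R w (z + e)) ^ 2 = ∑' z, ms Φ (cel R w z) ^ 2 :=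
          (Equiv.addRight e).tsum_eq (fun z => ms Φ (cel R w z) ^ 2)
        rw [ENNReal.tsum_mul_left, ENNReal.tsum_add, e2, ← two_mul, ← mul_assoc,
          ENNReal.inv_mul_cancel (by norm_num) (by norm_num), one_mul]
    _ = _ := by
        rw [Finset.sum_const, card_nbr, nsmul_eq_mul]
        norm_num

/-- there are pairs of points of the cells `z`, `z'` matched by `h` -/
def Mt (R w : ℝ) (h : G) (z z' : Fin 3 → ℤ) : Prop := ∃ g ∈ cel R w z, h * g ∈ cel R w z'

/-- **correlations of a union of cells of mass `≤ A` are bounded by the number of matched pairs** -/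
theorem Dd_le_card (hNu : nu.IsMulLeftInvariant) (Φ : G → ℂ) (hΦ : Continuous Φ) (R w : ℝ)
    (W : Finset (Fin 3 → ℤ)) {A : ℝ≥0∞} (hA : ∀ z ∈ W, ms Φ (cel R w z) ≤ A) (h : G)
    (E : Finset ((Fin 3 → ℤ) × (Fin 3 → ℤ))) (hE : ∀ z ∈ W, ∀ z' ∈ W, Mt R w h z z' → (z, z') ∈ E) :
    Dd Φ (celU R w W) h ≤ A * (E.card : ℝ≥0∞) := by
  classical
  have := hNu
  have hm : Measurable fun g => ‖Φ g‖ₑ := hΦ.measurable.enorm
  set f : (Fin 3 → ℤ) → G → ℝ≥0∞ := fun z => (cel R w z).indicator (fun x => ‖Φ x‖ₑ) with hf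
  have hfm : ∀ z, Measurable (f z) := fun z => hm.indicator (meas_cel R w z)
  have hlm : Measurable fun g : G => h * g := measurable_const_mul h
  -- the indicator of the union
  have h1 : ∀ g, (celU R w W).indicator (fun x => ‖Φ x‖ₑ) g = ∑ z ∈ W, f z g := by
    intro g
    by_cases hg : g ∈ celU R w W
    · rw [indicator_of_mem hg, Finset.sum_eq_single (cub w g)]
      · rw [hf]
        simp only
        rw [indicator_of_mem]
        exact mem_cel.2 ⟨hg.1, rfl⟩
      · intro z _ hz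
        rw [hf]
        simp only
        rw [indicator_of_notMem]
        intro h2
        exact hz (mem_cel.1 h2).2.symm
      · intro h2
        exact absurd hg.2 h2
    · rw [indicator_of_notMem hg]
      symm
      refine Finset.sum_eq_zero fun z hz => ?_
      rw [hf]
      simp only
      rw [indicator_of_notMem]
      intro h2
      rw [mem_cel] at h2
      exact hg ⟨h2.1, h2.2 ▸ hz⟩
  -- one pair
  have h2 : ∀ z ∈ W, ∀ z' ∈ W, ∫⁻ g, f z g * f z' (h * g) ∂nu ≤ A := by
    intro z hz z' hz'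
    calc ∫⁻ g, f z g * f z' (h * g) ∂nu ≤ ∫⁻ g, 2⁻¹ * (f z g ^ 2 + f z' (h * g) ^ 2) ∂nu :=
          lintegral_mono fun g => two_mul_le' _ _
      _ = 2⁻¹ * (ms Φ (cel R w z) + ms Φ (cel R w z')) := by
          have e : ∀ z, ∫⁻ g, f z g ^ 2 ∂nu = ms Φ (cel R w z) := by
            intro z
            unfold ms
            rw [← lintegral_indicator (meas_cel R w z)]
            congr 1
            funext g
            rw [hf]
            simp only
            by_cases hg : g ∈ cel R w z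
            · rw [indicator_of_mem hg, indicator_of_mem hg]
            · rw [indicator_of_notMem hg, indicator_of_notMem hg]
              norm_num
          have m1 : Measurable fun g => f z g ^ 2 := (hfm z).pow_const 2
          have m2 : Measurable fun g => f z' (h * g) ^ 2 := ((hfm z').comp hlm).pow_const 2
          have m3 : Measurable fun g => f z g ^ 2 + f z' (h * g) ^ 2 := m1.add m2
          rw [lintegral_const_mul _ m3, lintegral_add_left m1, e,
            lintegral_mul_left_eq_self (fun g => f z' g ^ 2) h, e]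
      _ ≤ 2⁻¹ * (A + A) := by
          gcongr
          · exact hA z hz
          · exact hA z' hz'
      _ = A := by
          rw [← two_mul, ← mul_assoc, ENNReal.inv_mul_cancel (by norm_num) (by norm_num), one_mul]
  have h3 : ∀ z ∈ W, ∀ z' ∈ W, ¬ Mt R w h z z' → ∫⁻ g, f z g * f z' (h * g) ∂nu = 0 := by
    intro z hz z' hz' hn
    have : ∀ g, f z g * f z' (h * g) = 0 := by
      intro g
      by_cases hg : g ∈ cel R w z
      · by_cases hg' : h * g ∈ cel R w z'
        · exact absurd ⟨g, hg, hg'⟩ hn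
        · rw [hf]
          simp only
          rw [indicator_of_notMem hg', mul_zero]
      · rw [hf]
        simp only
        rw [indicator_of_notMem hg, zero_mul]
    simp [this]
  calc Dd Φ (celU R w W) h = ∫⁻ g, ∑ z ∈ W, ∑ z' ∈ W, f z g * f z' (h * g) ∂nu := by
        unfold Dd
        refine lintegral_congr fun g => ?_
        rw [h1 g, h1 (h * g), Finset.sum_mul_sum]
    _ = ∑ z ∈ W, ∑ z' ∈ W, ∫⁻ g, f z g * f z' (h * g) ∂nu := by
        rw [lintegral_finsetSum]
        · refine Finset.sum_congr rfl fun z _ => ?_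
          rw [lintegral_finsetSum]
          intro z' _
          exact (hfm z).mul ((hfm z').comp hlm)
        · intro z _
          exact Finset.measurable_sum _ fun z' _ => (hfm z).mul ((hfm z').comp hlm)
    _ = ∑ y ∈ W ×ˢ W, ∫⁻ g, f y.1 g * f y.2 (h * g) ∂nu := by
        rw [Finset.sum_product]
    _ ≤ ∑ y ∈ W ×ˢ W, if y ∈ E then A else 0 := by
        refine Finset.sum_le_sum fun y hy => ?_
        rw [Finset.mem_product] at hy
        split_ifs with hyE
        · exact h2 _ hy.1 _ hy.2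
        · exact (h3 _ hy.1 _ hy.2 fun hM => hyE (hE _ hy.1 _ hy.2 hM)).le
    _ = (((W ×ˢ W).filter (fun y => y ∈ E)).card : ℝ≥0∞) * A := by
        rw [← Finset.sum_filter, Finset.sum_const, nsmul_eq_mul]
    _ ≤ (E.card : ℝ≥0∞) * A := by
        gcongr
        intro y hy
        exact (Finset.mem_filter.1 hy).2
    _ = _ := mul_comm _ _

end

end Pool.Agent.A54.HS
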