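import Pool.Agent.Lib.HS.C.Spec
import Pool.Agent.Lib.MP_a54f13_nt.Hp.Tub
import Pool.Agent.Lib.MP_a54f13_nt.Hp.Nm

/-!
# Package `HS`, part C, module Gt: cells near a rational geodesic lie in the torus set

helper83 (statement and proof on paper: helper36).
-/

set_option autoImplicit false

namespace Pool.Agent.A54.HS.GtC

open Set
open Pool.Agent.A54.Dyn (G)
open Pool.Agent.A54.Hp

noncomputable section

lemma KK_one {w : ℝ} (hw : 0 < w) (hw1 : w ≤ 1) : 1 ≤ KK w :=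
  Real.one_le_rpow_of_pos_of_le_one_of_nonpos hw hw1 (by norm_num)

/-- `w K^(199/200) = K^(-201/200)` -/
lemma w_mul {w : ℝ} (hw : 0 < w) : w * KK w ^ (199 / 200 : ℝ) = KK w ^ (-(201 / 200) : ℝ) := by
  unfold KK
  rw [← Real.rpow_mul hw.le, ← Real.rpow_mul hw.le]
  nth_rw 1 [← Real.rpow_one w]
  rw [← Real.rpow_add hw]
  norm_num

lemma rp_mem {R w : ℝ} {z : Fin 3 → ℤ} (h : (cel R w z).Nonempty) : rp R w z ∈ cel R w z := by
  unfold rp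
  rw [dif_pos h]
  exact h.some_mem

/-- the off-diagonal entries in a nearby frame -/
lemma off {C w P Q f d g p q : ℝ} (hC : 1 ≤ C) (hw : 0 ≤ w) (hw1 : w ≤ 1) (hP : 0 ≤ P) (hQ : w * P = Q)
    (hf : |f| ≤ P) (hd : |d| ≤ Q) (hg : |g| ≤ Q) (hp : |p| ≤ C) (hq : |q| ≤ C * w) :
    |p * q * (2 * f) + p ^ 2 * d - q ^ 2 * g| ≤ 4 * C ^ 2 * Q := by
  have hQ0 : 0 ≤ Q := hQ ▸ mul_nonneg hw hP
  have hC0 : 0 ≤ C := by linarith
  have a1 : |p * q * (2 * f)| ≤ 2 * C ^ 2 * Q := by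
    rw [abs_mul, abs_mul, abs_mul, abs_two]
    calc |p| * |q| * (2 * |f|) ≤ C * (C * w) * (2 * P) :=
          mul_le_mul (mul_le_mul hp hq (abs_nonneg _) hC0) (by linarith) (by positivity) (by positivity)
      _ = 2 * C ^ 2 * (w * P) := by ring
      _ = 2 * C ^ 2 * Q := by rw [hQ]
  have a2 : |p ^ 2 * d| ≤ C ^ 2 * Q := by
    rw [abs_mul, abs_pow]
    exact mul_le_mul (pow_le_pow_left₀ (abs_nonneg _) hp 2) hd (abs_nonneg _) (by positivity)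
  have a3 : |q ^ 2 * g| ≤ C ^ 2 * Q := by
    rw [abs_mul, abs_pow]
    have h1 : |q| ≤ C := hq.trans (by nlinarith)
    exact mul_le_mul (pow_le_pow_left₀ (abs_nonneg _) h1 2) hg (abs_nonneg _) (by positivity)
  have b1 := abs_le.1 a1
  have b2 := abs_le.1 a2
  have b3 := abs_le.1 a3
  rw [abs_le]
  constructor <;> linarith [b1.1, b1.2, b2.1, b2.2, b3.1, b3.2]

/-- a sum of four products -/
lemma four {R P a b f c d g e h i j k l : ℝ} (hR : 0 ≤ R) (ha : |a| ≤ R) (hb : |b| ≤ R) (hf : |f| ≤ P)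
    (hc : |c| ≤ R) (hd : |d| ≤ R) (hg : |g| ≤ P) (he : |e| ≤ R) (hh : |h| ≤ R) (hi : |i| ≤ P)
    (hj : |j| ≤ R) (hk : |k| ≤ R) (hl : |l| ≤ P) :
    |a * b * f + c * d * g + e * h * i + j * k * l| ≤ 4 * R ^ 2 * P := by
  have one : ∀ u v s : ℝ, |u| ≤ R → |v| ≤ R → |s| ≤ P → |u * v * s| ≤ R ^ 2 * P := by
    intro u v s hu hv hs
    rw [abs_mul, abs_mul, sq]
    exact mul_le_mul (mul_le_mul hu hv (abs_nonneg _) hR) hs (abs_nonneg _) (by positivity)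
  have b1 := abs_le.1 (one a b f ha hb hf)
  have b2 := abs_le.1 (one c d g hc hd hg)
  have b3 := abs_le.1 (one e h i he hh hi)
  have b4 := abs_le.1 (one j k l hj hk hl)
  rw [abs_le]
  constructor <;> linarith [b1.1, b1.2, b2.1, b2.2, b3.1, b3.2, b4.1, b4.2]

end

end Pool.Agent.A54.HS.GtC

namespace Pool.Agent.A54.HS

open Set
open Pool.Agent.A54.Dyn (G)
open Pool.Agent.A54.Hp

/-- **Gt** cells near a rational geodesic lie in the torus set. -/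
theorem stmtGt : StmtGt := by
  intro R hR
  obtain ⟨C, hC1, hC⟩ := stmtTub R hR
  have hR0 : 0 ≤ R := by linarith
  refine ⟨4 * C ^ 2 + 8 * R ^ 2, by nlinarith, ?_⟩
  intro w hw hw1 C₁ V z hne hbad
  have hK1 := GtC.KK_one hw hw1
  have hK0 : 0 < KK w := by linarith
  obtain ⟨x, hx⟩ : ∃ x, x = rp R w z := ⟨_, rfl⟩
  have hxz : x ∈ cel R w z := hx ▸ GtC.rp_mem hne
  have hbad' : ¬ ∀ v : HSL.MZ, v ≠ 0 → v.trace = 0 → |HSL.fr x.1 x.1 v 0 0| ≤ KK w ^ (1 - 1/200 : ℝ) →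
      |HSL.fr x.1 x.1 v 0 1| ≤ KK w ^ (-1 - 1/200 : ℝ) →
      |HSL.fr x.1 x.1 v 1 0| ≤ KK w ^ (-1 - 1/200 : ℝ) → False := by
    rw [hx]
    exact hbad
  push Not at hbad'
  obtain ⟨v, hv0, hvt, f0, f1, f2, -⟩ := hbad'
  have ea : (1 - 1/200 : ℝ) = 199 / 200 := by norm_num
  have eb : (-1 - 1/200 : ℝ) = -(201 / 200) := by norm_num
  rw [ea] at f0
  rw [eb] at f1 f2
  obtain ⟨P, hP⟩ : ∃ P, P = KK w ^ (199 / 200 : ℝ) := ⟨_, rfl⟩
  obtain ⟨Q, hQ⟩ : ∃ Q, Q = KK w ^ (-(201 / 200) : ℝ) := ⟨_, rfl⟩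
  have hwP : w * P = Q := by rw [hP, hQ]; exact GtC.w_mul hw
  have hP1 : 1 ≤ P := by rw [hP]; exact Real.one_le_rpow hK1 (by norm_num)
  have hQ1 : Q ≤ 1 := by rw [hQ]; exact Real.rpow_le_one_of_one_le_of_nonpos hK1 (by norm_num)
  have hQ0 : 0 < Q := by rw [hQ]; exact Real.rpow_pos_of_pos hK0 _
  rw [← hP] at f0 ⊢
  rw [← hQ] at f1 f2 ⊢
  have hdet : x 0 0 * x 1 1 - x 0 1 * x 1 0 = 1 := Dyn.det_eq x
  have hv11 : v 1 1 = -v 0 0 := by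
    rw [Matrix.trace_fin_two] at hvt
    linarith
  have hv11' : ((v 1 1 : ℤ) : ℝ) = -((v 0 0 : ℤ) : ℝ) := by rw [hv11]; push_cast; rfl
  -- the entries of the frame
  obtain ⟨F, hF⟩ : ∃ F, F = HSL.fr x.1 x.1 v := ⟨_, rfl⟩
  have hF00 : F 0 0 = x 1 1 * ((v 0 0 : ℤ) * x 0 0 + (v 0 1 : ℤ) * x 1 0) - x 0 1 * ((v 1 0 : ℤ) * x 0 0 + (v 1 1 : ℤ) * x 1 0) := by
    rw [hF]
    simp only [HSL.fr, HSL.toR, Matrix.adjugate_fin_two, Matrix.mul_apply, Fin.sum_univ_two, Matrix.map_apply, Matrix.of_apply,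
      Matrix.cons_val', Matrix.cons_val_zero, Matrix.cons_val_one, Matrix.empty_val', Matrix.cons_val_fin_one]
    ring
  have hF01 : F 0 1 = x 1 1 * ((v 0 0 : ℤ) * x 0 1 + (v 0 1 : ℤ) * x 1 1) - x 0 1 * ((v 1 0 : ℤ) * x 0 1 + (v 1 1 : ℤ) * x 1 1) := by
    rw [hF]
    simp only [HSL.fr, HSL.toR, Matrix.adjugate_fin_two, Matrix.mul_apply, Fin.sum_univ_two, Matrix.map_apply, Matrix.of_apply,
      Matrix.cons_val', Matrix.cons_val_zero, Matrix.cons_val_one, Matrix.empty_val', Matrix.cons_val_fin_one]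
    ring
  have hF10 : F 1 0 = x 0 0 * ((v 1 0 : ℤ) * x 0 0 + (v 1 1 : ℤ) * x 1 0) - x 1 0 * ((v 0 0 : ℤ) * x 0 0 + (v 0 1 : ℤ) * x 1 0) := by
    rw [hF]
    simp only [HSL.fr, HSL.toR, Matrix.adjugate_fin_two, Matrix.mul_apply, Fin.sum_univ_two, Matrix.map_apply, Matrix.of_apply,
      Matrix.cons_val', Matrix.cons_val_zero, Matrix.cons_val_one, Matrix.empty_val', Matrix.cons_val_fin_one]
    ring
  rw [← hF] at f0 f1 f2
  rw [hv11'] at hF00 hF01 hF10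
  have hOx := hxz.1
  have r00 : |x 0 0| ≤ R := hOx 0 0
  have r01 : |x 0 1| ≤ R := hOx 0 1
  have r10 : |x 1 0| ≤ R := hOx 1 0
  have r11 : |x 1 1| ≤ R := hOx 1 1
  have f1' : |F 0 1| ≤ P := by linarith
  have f2' : |F 1 0| ≤ P := by linarith
  have r01' : |-(x 0 1)| ≤ R := by rwa [abs_neg]
  have r10' : |-(x 1 0)| ≤ R := by rwa [abs_neg]
  have r00' : |-(x 0 0)| ≤ R := by rwa [abs_neg]
  have r11' : |-(x 1 1)| ≤ R := by rwa [abs_neg]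
  -- the entries of `v`
  have v00 : ((v 0 0 : ℤ) : ℝ) = x 0 0 * x 1 1 * F 0 0 + x 0 1 * x 1 0 * F 0 0 + -(x 0 0) * x 1 0 * F 0 1 + x 0 1 * x 1 1 * F 1 0 := by
    rw [hF00, hF01, hF10]
    linear_combination (-((v 0 0 : ℤ) : ℝ)) * (x 0 0 * x 1 1 - x 0 1 * x 1 0 + 1) * hdet
  have v01 : ((v 0 1 : ℤ) : ℝ) = -(x 0 0) * x 0 1 * F 0 0 + -(x 0 0) * x 0 1 * F 0 0 + x 0 0 * x 0 0 * F 0 1 + -(x 0 1) * x 0 1 * F 1 0 := by
    rw [hF00, hF01, hF10]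
    linear_combination (-((v 0 1 : ℤ) : ℝ)) * (x 0 0 * x 1 1 - x 0 1 * x 1 0 + 1) * hdet
  have v10 : ((v 1 0 : ℤ) : ℝ) = x 1 0 * x 1 1 * F 0 0 + x 1 0 * x 1 1 * F 0 0 + -(x 1 0) * x 1 0 * F 0 1 + x 1 1 * x 1 1 * F 1 0 := by
    rw [hF00, hF01, hF10]
    linear_combination (-((v 1 0 : ℤ) : ℝ)) * (x 0 0 * x 1 1 - x 0 1 * x 1 0 + 1) * hdet
  have hP0 : 0 ≤ P := by linarith
  have bv00 : |((v 0 0 : ℤ) : ℝ)| ≤ 4 * R ^ 2 * P := by
    rw [v00]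
    exact GtC.four hR0 r00 r11 f0 r01 r10 f0 r00' r10 f1' r01 r11 f2'
  have bv01 : |((v 0 1 : ℤ) : ℝ)| ≤ 4 * R ^ 2 * P := by
    rw [v01]
    exact GtC.four hR0 r00' r01 f0 r00' r01 f0 r00 r00 f1' r01' r01 f2'
  have bv10 : |((v 1 0 : ℤ) : ℝ)| ≤ 4 * R ^ 2 * P := by
    rw [v10]
    exact GtC.four hR0 r10 r11 f0 r10 r11 f0 r10' r10 f1' r11 r11 f2'
  have hCP : 0 ≤ 4 * C ^ 2 * P := by positivity
  have hRP : 0 ≤ 4 * R ^ 2 * P := by positivity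
  have hRQ : 0 ≤ 8 * R ^ 2 * Q := by positivity
  intro x' hx'
  refine ⟨![2 * v 0 0, v 0 1, v 1 0], ?_, ?_, hx'.1, ?_, ?_⟩
  · intro h0
    apply hv0
    have h1 := congrFun h0 0
    have h2 := congrFun h0 1
    have h3 := congrFun h0 2
    simp only [Matrix.cons_val_zero, Matrix.cons_val_one, Matrix.cons_val, Pi.zero_apply] at h1 h2 h3
    ext i j
    fin_cases i <;> fin_cases j
    · show v 0 0 = 0
      omega
    · show v 0 1 = 0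
      exact h2
    · show v 1 0 = 0
      exact h3
    · show v 1 1 = 0
      omega
  · intro i
    fin_cases i
    · show |((2 * v 0 0 : ℤ) : ℝ)| ≤ _
      push_cast
      rw [abs_mul, abs_two]
      linarith
    · show |((v 0 1 : ℤ) : ℝ)| ≤ _
      linarith
    · show |((v 1 0 : ℤ) : ℝ)| ≤ _
      linarith
  · obtain ⟨b00, b11, b01, b10⟩ := hC (xi x) w hw x (cel_sub_Tb hw hxz hxz) x' (cel_sub_Tb hw hxz hx')
    obtain ⟨e, he⟩ : ∃ e, e = x⁻¹ * x' := ⟨_, rfl⟩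
    rw [← he] at b00 b11 b01 b10
    have hxe : x' = x * e := by rw [he, mul_inv_cancel_left]
    have key : HSF.oa x' ![2 * v 0 0, v 0 1, v 1 0] = e 1 1 * e 0 1 * (2 * F 0 0) + e 1 1 ^ 2 * F 0 1 - e 0 1 ^ 2 * F 1 0 := by
      rw [hF00, hF01, hF10]
      simp only [HSF.oa, hxe, NmM.mul_ij, Matrix.cons_val_zero, Matrix.cons_val_one, Matrix.cons_val]
      push_cast
      ring
    rw [key]
    have := GtC.off hC1 hw.le hw1 hP0 hwP f0 f1 f2 b11 b01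
    linarith
  · obtain ⟨b00, b11, b01, b10⟩ := hC (xi x) w hw x (cel_sub_Tb hw hxz hxz) x' (cel_sub_Tb hw hxz hx')
    obtain ⟨e, he⟩ : ∃ e, e = x⁻¹ * x' := ⟨_, rfl⟩
    rw [← he] at b00 b11 b01 b10
    have hxe : x' = x * e := by rw [he, mul_inv_cancel_left]
    have key : HSF.ob x' ![2 * v 0 0, v 0 1, v 1 0] = e 0 0 * (-(e 1 0)) * (2 * F 0 0) + e 0 0 ^ 2 * F 1 0 - (-(e 1 0)) ^ 2 * F 0 1 := by
      rw [hF00, hF01, hF10]
      simp only [HSF.ob, hxe, NmM.mul_ij, Matrix.cons_val_zero, Matrix.cons_val_one, Matrix.cons_val]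
      push_cast
      ring
    rw [key]
    have b10' : |-(e 1 0)| ≤ C * w := by rwa [abs_neg]
    have := GtC.off hC1 hw.le hw1 hP0 hwP f0 f2 f1 b00 b10'
    linarith

end Pool.Agent.A54.HS
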