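import Pool.Agent.Lib.HS.C.Spec
import Pool.Agent.Lib.MP_a54f13_nt.Hp.Tub

/-!
# Package `HS`, part C: cells near a cusp
-/

set_option autoImplicit false

namespace Pool.Agent.A54.HS

open MeasureTheory Filter Topology Set
open scoped ContDiff ComplexConjugate UpperHalfPlane MatrixGroups ENNReal
open Pool.Agent.A54.Dyn (G fl base ze io mk4 dom)
open Pool.Agent.A54.Av (Mat NonSc)
open Pool.Agent.A54.Hp Pool.Agent.A54.Hp.Hk Pool.Agent.A54.Hp.A2M

namespace GzC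

/-- the arithmetic: one small coordinate `a`, one large coordinate `b` -/
lemma core {C₀ R w P Q a b d e : ℝ} (hC : 1 ≤ C₀) (hR : 1 ≤ R) (hw : 0 < w) (hw1 : w ≤ 1) (hP : 0 < P) (hQ : 0 < Q)
    (hPQ : P ≤ Q) (hwQ : w * Q ≤ P) (ha : |a| ≤ P) (hb : |b| ≤ 2 * R * Q) (hd : |d| ≤ C₀) (he : |e| ≤ C₀ * w) :
    |d * a - e * b| ≤ C₀ * (1 + 2 * R) * P ∧ |d * b - e * a| ≤ C₀ * (1 + 2 * R) * Q := by
  have hC0 : 0 < C₀ := by linarith
  constructor
  · calc |d * a - e * b| ≤ |d * a| + |e * b| := abs_sub _ _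
      _ ≤ C₀ * P + (C₀ * w) * (2 * R * Q) := by
          rw [abs_mul, abs_mul]
          exact add_le_add (mul_le_mul hd ha (abs_nonneg _) hC0.le)
            (mul_le_mul he hb (abs_nonneg _) (by positivity))
      _ = C₀ * P + C₀ * (2 * R) * (w * Q) := by ring
      _ ≤ C₀ * P + C₀ * (2 * R) * P := by
          have : C₀ * (2 * R) * (w * Q) ≤ C₀ * (2 * R) * P := mul_le_mul_of_nonneg_left hwQ (by positivity)
          linarith
      _ = C₀ * (1 + 2 * R) * P := by ring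
  · calc |d * b - e * a| ≤ |d * b| + |e * a| := abs_sub _ _
      _ ≤ C₀ * (2 * R * Q) + (C₀ * w) * P := by
          rw [abs_mul, abs_mul]
          exact add_le_add (mul_le_mul hd hb (abs_nonneg _) hC0.le)
            (mul_le_mul he ha (abs_nonneg _) (by positivity))
      _ ≤ C₀ * (2 * R * Q) + C₀ * Q := by
          have h1 : w * P ≤ Q := by
            calc w * P ≤ 1 * P := mul_le_mul_of_nonneg_right hw1 hP.le
              _ ≤ Q := by linarith
          have h2 : C₀ * (w * P) ≤ C₀ * Q := mul_le_mul_of_nonneg_left h1 hC0.le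
          linarith
      _ = C₀ * (1 + 2 * R) * Q := by ring

end GzC

open GzC

theorem stmtGz : StmtGz := by
  intro R hR
  obtain ⟨C₀, hC₀, htub⟩ := stmtTub R hR
  refine ⟨C₀ * (1 + 2 * R), ?_, ?_⟩
  · have h1 : (1 : ℝ) ≤ 1 + 2 * R := by linarith
    exact one_le_mul_of_one_le_of_one_le hC₀ h1
  intro w hw hw1 C₁ V z hne hbad x' hx'
  have hrp : rp R w z = hne.some := by
    unfold rp
    rw [dif_pos hne]
  set x : G := rp R w z with hx
  have hxc : x ∈ cel R w z := by rw [hrp]; exact hne.some_mem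
  have hxO : x ∈ Om R := hxc.1
  have hK1 : 1 ≤ KK w := Real.one_le_rpow_of_pos_of_le_one_of_nonpos hw hw1 (by norm_num)
  have hK0 : 0 < KK w := by linarith
  -- the tube
  have hsub := cel_sub_Tb hw hxc
  obtain ⟨e00, e11, e01, e10⟩ := htub (xi x) w hw x (hsub hxc) x' (hsub hx')
  -- the bad vector
  unfold HSL.Sys.GoodZ at hbad
  push Not at hbad
  obtain ⟨q, hq0, hqn, hq⟩ := hbad
  set a : ℝ := x 1 1 * q 0 - x 0 1 * q 1 with ha
  set b : ℝ := -(x 1 0) * q 0 + x 0 0 * q 1 with hb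
  have hqn' : ((q 0 : ℝ)) ^ 2 + ((q 1 : ℝ)) ^ 2 ≤ KK w ^ (1 / 100 : ℝ) := hqn
  have hq' : |a * b| < KK w ^ (-1 + 1 / 100 : ℝ) := by
    have h := hq
    simp only [sy, Matrix.mulVec, dotProduct, Fin.sum_univ_two, Matrix.adjugate_fin_two, Matrix.of_apply,
      Matrix.cons_val_zero, Matrix.cons_val_one, Matrix.cons_val', Matrix.empty_val', Matrix.cons_val_fin_one] at h
    have e1 : a * b = ((rp R w z).1 1 1 * (q 0 : ℝ) + -(rp R w z).1 0 1 * (q 1 : ℝ)) *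
        (-(rp R w z).1 1 0 * (q 0 : ℝ) + (rp R w z).1 0 0 * (q 1 : ℝ)) := by
      rw [ha, hb]
      show (x.1 1 1 * (q 0 : ℝ) - x.1 0 1 * (q 1 : ℝ)) * (-(x.1 1 0) * (q 0 : ℝ) + x.1 0 0 * (q 1 : ℝ)) = _
      rw [hx]
      ring
    rw [e1]
    exact h
  -- size of the coordinates
  have hK200 : (KK w ^ (1 / 200 : ℝ)) ^ 2 = KK w ^ (1 / 100 : ℝ) := by
    rw [← Real.rpow_natCast, ← Real.rpow_mul hK0.le]
    norm_num
  have hq1 : ∀ i, |(q i : ℝ)| ≤ KK w ^ (1 / 200 : ℝ) := by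
    intro i
    apply abs_le_of_sq_le_sq _ (Real.rpow_nonneg hK0.le _)
    rw [hK200]
    fin_cases i
    · exact le_trans (le_add_of_nonneg_right (sq_nonneg _)) hqn'
    · exact le_trans (le_add_of_nonneg_left (sq_nonneg _)) hqn'
  have hab : |a| ≤ 2 * R * KK w ^ (1 / 200 : ℝ) ∧ |b| ≤ 2 * R * KK w ^ (1 / 200 : ℝ) := by
    have hR0 : 0 ≤ R := by linarith
    have m : ∀ (s : ℝ) (i : Fin 2), |s| ≤ R → |s * (q i : ℝ)| ≤ R * KK w ^ (1 / 200 : ℝ) := fun s i hs => by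
      rw [abs_mul]
      exact mul_le_mul hs (hq1 i) (abs_nonneg _) hR0
    constructor
    · refine (abs_sub _ _).trans ?_
      have h1 := m _ 0 (hxO 1 1)
      have h2 := m _ 1 (hxO 0 1)
      linarith
    · refine (abs_add_le _ _).trans ?_
      have h1 := m (-(x 1 0)) 0 (by rw [abs_neg]; exact hxO 1 0)
      have h2 := m _ 1 (hxO 0 0)
      linarith
  -- one coordinate is small
  have hPP : KK w ^ (-(99 / 200) : ℝ) * KK w ^ (-(99 / 200) : ℝ) = KK w ^ (-1 + 1 / 100 : ℝ) := by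
    rw [← Real.rpow_add hK0]
    norm_num
  have hP0 : 0 < KK w ^ (-(99 / 200) : ℝ) := Real.rpow_pos_of_pos hK0 _
  have hQ0 : 0 < KK w ^ (1 / 200 : ℝ) := Real.rpow_pos_of_pos hK0 _
  have hPQ : KK w ^ (-(99 / 200) : ℝ) ≤ KK w ^ (1 / 200 : ℝ) :=
    Real.rpow_le_rpow_of_exponent_le hK1 (by norm_num)
  have hwK : w = KK w ^ (-2 : ℝ) := by
    unfold KK
    rw [← Real.rpow_mul hw.le]
    norm_num
  have hwQ : w * KK w ^ (1 / 200 : ℝ) ≤ KK w ^ (-(99 / 200) : ℝ) := by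
    calc w * KK w ^ (1 / 200 : ℝ) = KK w ^ (-2 : ℝ) * KK w ^ (1 / 200 : ℝ) := by rw [← hwK]
      _ = KK w ^ (-2 + 1 / 200 : ℝ) := by rw [← Real.rpow_add hK0]
      _ ≤ _ := Real.rpow_le_rpow_of_exponent_le hK1 (by norm_num)
  have hsmall : |a| ≤ KK w ^ (-(99 / 200) : ℝ) ∨ |b| ≤ KK w ^ (-(99 / 200) : ℝ) := by
    by_contra hno
    push Not at hno
    have h1 : KK w ^ (-(99 / 200) : ℝ) * KK w ^ (-(99 / 200) : ℝ) < |a| * |b| :=
      mul_lt_mul'' hno.1 hno.2 hP0.le hP0.le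
    rw [hPP, ← abs_mul] at h1
    exact absurd h1 (not_lt.mpr hq'.le)
  -- the coordinates of `x'`
  have hinv : x' = x * (x⁻¹ * x') := by rw [mul_inv_cancel_left]
  set e : G := x⁻¹ * x' with he
  have hc : ∀ i j, x' i j = ∑ k, x i k * e k j := by
    intro i j
    have h := congrArg (fun g : G => g i j) hinv
    simp only [Matrix.SpecialLinearGroup.coe_mul, Matrix.mul_apply] at h
    exact h
  have hdet : x 0 0 * x 1 1 - x 0 1 * x 1 0 = 1 := by
    have h := x.2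
    rw [Matrix.det_fin_two] at h
    exact h
  have f1 : x' 1 1 * q 0 - x' 0 1 * q 1 = e 1 1 * a - e 0 1 * b := by
    rw [hc, hc, Fin.sum_univ_two, Fin.sum_univ_two, ha, hb]
    ring
  have f2 : -(x' 1 0) * q 0 + x' 0 0 * q 1 = e 0 0 * b - e 1 0 * a := by
    rw [hc, hc, Fin.sum_univ_two, Fin.sum_univ_two, ha, hb]
    ring
  refine ⟨hx'.1, q, hq0, ?_⟩
  rw [f1, f2]
  rcases hsmall with h | h
  · left
    refine ⟨(core hC₀ hR hw hw1 hP0 hQ0 hPQ hwQ h hab.2 e11 e01).1, ?_⟩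
    exact (core hC₀ hR hw hw1 hP0 hQ0 hPQ hwQ h hab.2 e00 e10).2
  · right
    refine ⟨(core hC₀ hR hw hw1 hP0 hQ0 hPQ hwQ h hab.1 e00 e10).1, ?_⟩
    exact (core hC₀ hR hw hw1 hP0 hQ0 hPQ hwQ h hab.1 e11 e01).2

end Pool.Agent.A54.HS
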