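import Pool.Agent.Lib.HS.C.Spec
import Pool.Agent.Lib.HS.C.Mc

/-!
# Package `HS`, part C: the system of cells of a critical level (`StmtHyp`)

helper36.
-/

set_option autoImplicit false

namespace Pool.Agent.A54.HS

open MeasureTheory Filter Topology Set
open scoped ContDiff ComplexConjugate UpperHalfPlane MatrixGroups ENNReal
open Pool.Agent.A54.Dyn (G fl base ze io mk4 dom)
open Pool.Agent.A54.Av (Mat NonSc)
open Pool.Agent.A54.Hp Pool.Agent.A54.Hp.Hk Pool.Agent.A54.Hp.A2M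

noncomputable section

namespace HypC

lemma KK_rpow {w : ℝ} (hw : 0 < w) (a : ℝ) : KK w ^ a = w ^ (-(a / 2)) := by
  unfold KK
  rw [← Real.rpow_mul hw.le]
  congr 1
  ring

/-- asymptotic statements -/
lemma small {p : ℝ → Prop} (h : ∀ᶠ x in atTop, p x) : ∃ w₁ : ℝ, 0 < w₁ ∧ w₁ ≤ 1 ∧ ∀ w : ℝ, 0 < w → w ≤ w₁ → p w⁻¹ := by
  obtain ⟨X, hX⟩ := eventually_atTop.1 h
  refine ⟨(max X 1)⁻¹, by positivity, inv_le_one_of_one_le₀ (le_max_right _ _), fun w hw hw1 => hX _ ?_⟩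
  refine (le_max_left X 1).trans ?_
  rw [le_inv_comm₀ (by positivity) hw]
  exact hw1

/-- powers of `w` with different exponents beat constants -/
lemma beat (D a b : ℝ) (hab : b < a) : ∃ w₁ : ℝ, 0 < w₁ ∧ w₁ ≤ 1 ∧ ∀ w : ℝ, 0 < w → w ≤ w₁ → D * w ^ a ≤ w ^ b := by
  obtain ⟨w₁, h1, h2, h3⟩ := small ((tendsto_rpow_atTop (show 0 < a - b by linarith)).eventually_ge_atTop D)
  refine ⟨w₁, h1, h2, fun w hw hw1 => ?_⟩
  have h4 := h3 w hw hw1
  rw [Real.inv_rpow hw.le, ← Real.rpow_neg hw.le] at h4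
  calc D * w ^ a ≤ w ^ (-(a - b)) * w ^ a := mul_le_mul_of_nonneg_right h4 (Real.rpow_nonneg hw.le _)
    _ = w ^ b := by
        rw [← Real.rpow_add hw]
        congr 1
        ring

/-- the number of cells in a set of small mass -/
lemma card_mass (Φ : G → ℂ) {R w A : ℝ} (hA : 0 < A) (V : Finset (Fin 3 → ℤ))
    (hV : ∀ z ∈ V, ENNReal.ofReal A ≤ ms Φ (cel R w z)) {m : ℝ} (hm : 0 ≤ m)
    (h : ms Φ (celU R w V) ≤ ENNReal.ofReal m) : A * (V.card : ℝ) ≤ m := by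
  have h1 : ENNReal.ofReal (A * (V.card : ℝ)) ≤ ENNReal.ofReal m := by
    refine le_trans ?_ h
    rw [ms_celU, mul_comm, ENNReal.ofReal_mul (by positivity), ENNReal.ofReal_natCast, ← nsmul_eq_mul,
      ← Finset.sum_const]
    exact Finset.sum_le_sum hV
  exact (ENNReal.ofReal_le_ofReal_iff hm).1 h1

end HypC

open HypC in
theorem stmtHyp (h1 : StmtMc) (h2 : StmtOv) (h3 : StmtGt) (h4 : StmtGz) (h5 : StmtMs) (h6 : StmtAIc)
    (hTot : StmtTot) : StmtHyp := by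
  classical
  intro k hk
  have hkR : (251 : ℝ) ≤ k := by exact_mod_cast hk
  have hk0 : (0 : ℝ) < k := by linarith
  set θ : ℝ := thk k with hθ
  have hθ0 : 0 < θ := by rw [hθ]; unfold thk; positivity
  have hθ1 : θ ≤ 1 / 1000000 := by
    rw [hθ]; unfold thk
    exact one_div_le_one_div_of_le (by norm_num) (by nlinarith)
  set σ : ℝ := HSL.sg k θ with hσ
  have hσ0 : 0 < σ := by rw [hσ]; unfold HSL.sg; positivity
  have hσ1 : σ ≤ 1 / 10000000 := by
    rw [hσ]; unfold HSL.sg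
    rw [div_le_iff₀ (by positivity)]
    nlinarith
  set c : ℝ := σ / 100 with hc
  have hc0 : 0 < c := by positivity
  refine ⟨c, hc0, by linarith, ?_⟩
  intro R hR
  obtain ⟨C, hC1, hC⟩ := h1 R hR
  obtain ⟨B, hB1, hB⟩ := h2 R hR
  obtain ⟨Ct, hCt1, hCt⟩ := h3 R hR
  obtain ⟨Cz, hCz1, hCz⟩ := h4 R hR
  obtain ⟨CT, hCT, hTot⟩ := hTot R hR
  refine ⟨C, B, hC1, hB1, ?_⟩
  intro K₁
  obtain ⟨w1, hw1, hw1', hAI⟩ := h6 k R C hk hR hC1 hC
  obtain ⟨w2, hw2, hw2', hMt⟩ := h5 k R Ct (by linarith) hR hCt1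
  obtain ⟨w3, hw3, hw3', hMz⟩ := h5 k R Cz (by linarith) hR hCz1
  obtain ⟨w4, hw4, hw4', e4⟩ := beat K₁ 0 (-(1 / 2)) (by norm_num)
  obtain ⟨w5, hw5, hw5', e5⟩ := beat (B * ((2 * C) ^ k) ^ 14) 0 (-(σ / 2)) (by linarith)
  obtain ⟨w6, hw6, hw6', e6⟩ := beat 4 (1 / 1400) (2 * c) (by linarith)
  obtain ⟨w7, hw7, hw7', e7⟩ := beat 2 (σ / 8) (2 * c) (by linarith)
  obtain ⟨w8, hw8, hw8', e8⟩ := beat 2 (-1 + σ / 2) (-1 + 3 * c) (by linarith)
  obtain ⟨w9, hw9, hw9', e9⟩ := beat CT (-1 - c) (-1 - σ / 2) (by linarith)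
  refine ⟨min (min (min w1 w2) (min w3 w4)) (min (min w5 w6) (min (min w7 w8) w9)), by positivity, ?_, ?_⟩
  · exact (min_le_left _ _).trans ((min_le_left _ _).trans ((min_le_left _ _).trans hw1'))
  intro l Φ hE hcu w hw hww hG A hA1 hA2 V₀ hV₀ hbig
  have i1 : w ≤ w1 := hww.trans ((min_le_left _ _).trans ((min_le_left _ _).trans (min_le_left _ _)))
  have i2 : w ≤ w2 := hww.trans ((min_le_left _ _).trans ((min_le_left _ _).trans (min_le_right _ _)))
  have i3 : w ≤ w3 := hww.trans ((min_le_left _ _).trans ((min_le_right _ _).trans (min_le_left _ _)))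
  have i4 : w ≤ w4 := hww.trans ((min_le_left _ _).trans ((min_le_right _ _).trans (min_le_right _ _)))
  have i5 : w ≤ w5 := hww.trans ((min_le_right _ _).trans ((min_le_left _ _).trans (min_le_left _ _)))
  have i6 : w ≤ w6 := hww.trans ((min_le_right _ _).trans ((min_le_left _ _).trans (min_le_right _ _)))
  have i7 : w ≤ w7 := hww.trans ((min_le_right _ _).trans ((min_le_right _ _).trans
    ((min_le_left _ _).trans (min_le_left _ _))))
  have i8 : w ≤ w8 := hww.trans ((min_le_right _ _).trans ((min_le_right _ _).trans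
    ((min_le_left _ _).trans (min_le_right _ _))))
  have i9 : w ≤ w9 := hww.trans ((min_le_right _ _).trans ((min_le_right _ _).trans (min_le_right _ _)))
  have hw1e : w ≤ 1 := i1.trans hw1'
  have hpow : ∀ a b : ℝ, b ≤ a → w ^ a ≤ w ^ b := fun a b h =>
    Real.rpow_le_rpow_of_exponent_ge hw hw1e h
  have hpp : ∀ a : ℝ, 0 < w ^ a := fun a => Real.rpow_pos_of_pos hw a
  have hKK1 : 1 ≤ KK w := by
    unfold KK
    exact Real.one_le_rpow_of_pos_of_le_one_of_nonpos hw hw1e (by norm_num)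
  have hA : 0 < A := lt_of_lt_of_le (hpp _) hA1
  have hne : ∀ z ∈ V₀, (cel R w z).Nonempty := by
    intro z hz
    rw [Set.nonempty_iff_ne_empty]
    intro he
    have h := (hV₀ z hz).1
    rw [he] at h
    unfold ms at h
    rw [Measure.restrict_empty, lintegral_zero_measure] at h
    exact absurd (ENNReal.ofReal_pos.2 hA) (not_lt.2 h)
  -- the good cells
  set V : Finset (Fin 3 → ℤ) := V₀.filter (fun z => (sy R w C V₀).GoodT z ∧ (sy R w C V₀).GoodZ (1 / 100) z)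
    with hV
  have hVV : V ⊆ V₀ := Finset.filter_subset _ _
  have hVV' : ∀ z, z ∈ V → z ∈ V₀ := fun z hz => hVV hz
  have hgt : ∀ z ∈ V, (sy R w C V).GoodT z := fun z hz => (Finset.mem_filter.1 hz).2.1
  have hgz : ∀ z ∈ V, (sy R w C V).GoodZ (1 / 100) z := fun z hz => (Finset.mem_filter.1 hz).2.2
  -- total masses
  have htot0 : w ^ (2 * c) ≤ A * (V₀.card : ℝ) := by
    have g1 : w ^ (1 + c) ≤ w ^ (1 - c) * (A * (V₀.card : ℝ)) := by
      refine hbig.trans ?_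
      rw [show A ^ 2 * (V₀.card : ℝ) = A * (A * (V₀.card : ℝ)) by ring]
      exact mul_le_mul_of_nonneg_right hA2 (by positivity)
    have g2 : w ^ (1 + c) = w ^ (1 - c) * w ^ (2 * c) := by
      rw [← Real.rpow_add hw]
      congr 1
      ring
    rw [g2] at g1
    exact le_of_mul_le_mul_left g1 (hpp _)
  have hbad : A * ((V₀ \ V).card : ℝ) ≤ 2 * w ^ (1 / 1400 : ℝ) := by
    refine card_mass Φ hA _ (fun z hz => (hV₀ z (Finset.sdiff_subset hz)).1) (by positivity) ?_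
    have g1 : celU R w (V₀ \ V) ⊆
        Zc R (Cz * KK w ^ (-(99 / 200) : ℝ)) (Cz * KK w ^ (1 / 200 : ℝ)) ∪
          HSF.TT R (Ct * KK w ^ (199 / 200 : ℝ)) (Ct * KK w ^ (-(201 / 200) : ℝ)) := by
      intro g hg
      obtain ⟨hg1, hg2⟩ := hg
      rw [Finset.mem_sdiff] at hg2
      have hgc : g ∈ cel R w (cub w g) := mem_cel.2 ⟨hg1, rfl⟩
      by_cases hT : (sy R w C V₀).GoodT (cub w g)
      · by_cases hZ : (sy R w C V₀).GoodZ (1 / 100) (cub w g)
        · exact absurd (Finset.mem_filter.2 ⟨hg2.1, hT, hZ⟩) hg2.2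
        · exact Or.inl (hCz w hw hw1e C V₀ _ ⟨g, hgc⟩ hZ hgc)
      · exact Or.inr (hCt w hw hw1e C V₀ _ ⟨g, hgc⟩ hT hgc)
    refine (ms_mono Φ g1).trans ((lintegral_union_le _ _ _).trans ?_)
    have g2 := (hMz l Φ hE hcu w hw i3 hG).1
    have g3 := (hMt l Φ hE hcu w hw i2 hG).2
    have g4 : ENNReal.ofReal (w ^ (1 / 100 : ℝ)) ≤ ENNReal.ofReal (w ^ (1 / 1400 : ℝ)) :=
      ENNReal.ofReal_le_ofReal (hpow _ _ (by norm_num))
    calc ms Φ _ + ms Φ _ ≤ ENNReal.ofReal (w ^ (1 / 1400 : ℝ)) + ENNReal.ofReal (w ^ (1 / 1400 : ℝ)) :=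
          add_le_add (g2.trans g4) g3
      _ = ENNReal.ofReal (2 * w ^ (1 / 1400 : ℝ)) := by
          rw [← ENNReal.ofReal_add (by positivity) (by positivity), two_mul]
  have htot : w ^ (2 * c) / 2 ≤ A * (V.card : ℝ) := by
    have g1 : (V₀.card : ℝ) = ((V₀ \ V).card : ℝ) + (V.card : ℝ) := by
      have := Finset.card_sdiff_add_card_eq_card hVV
      exact_mod_cast this.symm
    have g2 := e6 w hw i6
    rw [g1] at htot0
    linarith
  have hup : A * (V.card : ℝ) ≤ CT :=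
    card_mass Φ hA V (fun z hz => (hV₀ z (hVV hz)).1) hCT
      ((ms_mono Φ (celU_sub R w V)).trans (hTot l Φ hE))
  -- the numbers
  have hlo1 : KK w ^ (-(σ / 4)) ≤ A * (V.card : ℝ) := by
    refine le_trans ?_ htot
    have g1 := e7 w hw i7
    rw [KK_rpow hw, show -(-(σ / 4) / 2) = σ / 8 by ring]
    linarith
  have hlo2 : KK w ^ (2 - σ) ≤ (V.card : ℝ) := by
    have g1 := e8 w hw i8
    have g2 : w ^ (2 * c) / 2 ≤ w ^ (1 - c) * (V.card : ℝ) :=
      htot.trans (mul_le_mul_of_nonneg_right hA2 (by positivity))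
    have g3 : w ^ (2 * c) = w ^ (1 - c) * w ^ (-1 + 3 * c) := by
      rw [← Real.rpow_add hw]
      congr 1
      ring
    rw [g3] at g2
    have g4 : w ^ (-1 + 3 * c) / 2 ≤ (V.card : ℝ) := by
      refine le_of_mul_le_mul_left ?_ (hpp (1 - c))
      linarith
    rw [KK_rpow hw, show -((2 - σ) / 2) = -1 + σ / 2 by ring]
    linarith
  have hhi : (V.card : ℝ) ≤ KK w ^ (2 + σ) := by
    have g1 := e9 w hw i9
    rw [KK_rpow hw, show -((2 + σ) / 2) = -1 - σ / 2 by ring]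
    refine le_trans ?_ g1
    have g2 : w ^ (1 + c) * (V.card : ℝ) ≤ CT :=
      (mul_le_mul_of_nonneg_right hA1 (by positivity)).trans hup
    have g3 : w ^ (-1 - c) * (w ^ (1 + c) * (V.card : ℝ)) = (V.card : ℝ) := by
      rw [← mul_assoc, ← Real.rpow_add hw, show -1 - c + (1 + c) = 0 by ring, Real.rpow_zero, one_mul]
    calc (V.card : ℝ) = w ^ (-1 - c) * (w ^ (1 + c) * (V.card : ℝ)) := g3.symm
      _ ≤ w ^ (-1 - c) * CT := mul_le_mul_of_nonneg_left g2 (hpp _).le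
      _ = CT * w ^ (-1 - c) := mul_comm _ _
  have hL : Lvl k Φ R w C A V :=
    { hA := hA
      ms1 := fun z hz => (hV₀ z (hVV hz)).1
      ms2 := fun z hz => (hV₀ z (hVV hz)).2
      lo := hlo1
      hi := hhi
      gt := hgt
      gz := hgz }
  have hov := hB w hw hw1e C V (fun z hz => hne z (hVV hz))
  have h2C : (1 : ℝ) ≤ (2 * C) ^ k := one_le_pow₀ (by linarith)
  -- the pools
  have hbl : ∀ s : ℝ, 1 / (4 * (k : ℝ)) ≤ s → s ≤ 1 / 1000 → ¬ GdC (1 / 10000) l (w ^ (-s)) := by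
    intro s hs1 hs2 hg
    refine hG ⟨w ^ (-s), ?_, ?_, hg⟩
    · refine hpow _ _ ?_
      have : 1 / (1000 * (k : ℝ)) ≤ 1 / (4 * (k : ℝ)) := one_div_le_one_div_of_le (by positivity) (by linarith)
      linarith
    · exact hpow _ _ (by linarith)
  have hM1 : KK w ^ (1 / (2 * (k : ℝ))) = w ^ (-(1 / (4 * (k : ℝ)))) := by
    rw [KK_rpow hw]
    congr 1
    field_simp
    ring
  have hM2 : KK w ^ ((1 + θ) / (2 * (k : ℝ))) = w ^ (-((1 + θ) / (4 * (k : ℝ)))) := by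
    rw [KK_rpow hw]
    congr 1
    field_simp
    ring
  have hM12 : KK w ^ (1 / (2 * (k : ℝ))) ≤ KK w ^ ((1 + θ) / (2 * (k : ℝ))) := by
    refine Real.rpow_le_rpow_of_exponent_le hKK1 ?_
    gcongr
    linarith
  have hs1 : 1 / (4 * (k : ℝ)) ≤ 1 / 1000 := by
    refine one_div_le_one_div_of_le (by norm_num) (by linarith)
  have hs2 : (1 + θ) / (4 * (k : ℝ)) ≤ 1 / 1000 := by
    rw [div_le_div_iff₀ (by positivity) (by norm_num)]
    nlinarith
  have hs3 : 1 / (4 * (k : ℝ)) ≤ (1 + θ) / (4 * (k : ℝ)) := by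
    gcongr
    linarith
  have hb1 : ¬ GdC (1 / 10000) l (KK w ^ (1 / (2 * (k : ℝ)))) := by
    rw [hM1]
    exact hbl _ le_rfl hs1
  have hb2 : ¬ GdC (1 / 10000) l (KK w ^ ((1 + θ) / (2 * (k : ℝ)))) := by
    rw [hM2]
    exact hbl _ hs3 hs2
  obtain ⟨p1a, p1b, p1c⟩ := hAI l Φ hE w A hw i1 V hL _ le_rfl hM12 hb1
  obtain ⟨p2a, p2b, p2c⟩ := hAI l Φ hE w A hw i1 V hL _ hM12 le_rfl hb2
  refine ⟨V, hVV, ?_, ?_, hov⟩
  · have g1 := e4 w hw i4
    rw [Real.rpow_zero, mul_one] at g1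
    exact g1
  · refine ⟨hKK1, ?_, hlo2, hhi, hgt, hgz, ?_, ⟨_, p1b, p1a, p1c⟩, ⟨_, p2b, p2a, p2c⟩⟩
    · intro z hz
      have g1 := rp_mem (hne z (hVV hz))
      exact ⟨(rp R w z).2, fun a b => (cel_sub R w z g1) a b⟩
    · intro i hi h m hdet hm T hT
      refine (hov _ h2C i hi h m hdet hm T hT).trans ?_
      have g1 := e5 w hw i5
      rw [Real.rpow_zero, mul_one] at g1
      have g2 : KK w ^ σ = w ^ (-(σ / 2)) := KK_rpow hw σ
      show B * ((2 * C) ^ k) ^ 14 ≤ KK w ^ σ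
      rw [g2]
      exact g1

end

end Pool.Agent.A54.HS
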