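import Pool.Agent.Lib.HS.C.Spec
import Pool.Agent.Lib.MP_a54f13_nt.Hp.Main
import Pool.Agent.Lib.HS.F.TopT

/-!
# HS/C, module Ms: the masses of the cusp set and of the torus set
-/

set_option autoImplicit false

namespace Pool.Agent.A54.HS

open MeasureTheory Filter Topology Set
open scoped ContDiff ComplexConjugate UpperHalfPlane MatrixGroups ENNReal
open Pool.Agent.A54.Dyn (G fl base ze io mk4 dom)
open Pool.Agent.A54.Av (Mat NonSc)
open Pool.Agent.A54.Hp Pool.Agent.A54.Hp.Hk Pool.Agent.A54.Hp.A2M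

noncomputable section

namespace MsC

/-- a constant is absorbed by a small power -/
theorem small (A e : ℝ) (hA : 1 ≤ A) (he : 0 < e) :
    ∃ w₁ : ℝ, 0 < w₁ ∧ w₁ ≤ 1 ∧ ∀ w : ℝ, 0 < w → w ≤ w₁ → A * w ^ e ≤ 1 := by
  have hA0 : 0 < A := by linarith
  refine ⟨A ^ (-(1 / e)), Real.rpow_pos_of_pos hA0 _,
    Real.rpow_le_one_of_one_le_of_nonpos hA (by have := one_div_pos.2 he; linarith), ?_⟩
  intro w hw hw1
  have h : w ^ e ≤ (A ^ (-(1 / e))) ^ e := Real.rpow_le_rpow hw.le hw1 he.le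
  rw [← Real.rpow_mul hA0.le] at h
  have h2 : -(1 / e) * e = -1 := by field_simp
  rw [h2, Real.rpow_neg_one] at h
  calc A * w ^ e ≤ A * A⁻¹ := mul_le_mul_of_nonneg_left h hA0.le
    _ = 1 := mul_inv_cancel₀ hA0.ne'

/-- powers of `KK w` -/
theorem KKpow {w : ℝ} (hw : 0 < w) (a : ℝ) : KK w ^ a = w ^ (-(1 / 2) * a) := by
  rw [KK, ← Real.rpow_mul hw.le]

end MsC

/-- **Ms** the masses of the two sets -/
theorem stmtMs : StmtMs := by
  intro K₀ R C hK₀ hR hC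
  obtain ⟨CU, hCU0, hU⟩ := pIsU R hR
  obtain ⟨wT, hwT0, hwT1, hT⟩ := HSF.ftt2 K₀ R hK₀ hR
  have hC0 : 0 < C := by linarith
  have hC2 : 1 ≤ C * C := by nlinarith
  have hA1 : 1 ≤ (CU + 1) * (4 * (C * C)) := by nlinarith
  obtain ⟨w1, hw10, hw11, h1⟩ := MsC.small (4 * (C * C)) (49 / 200) (by nlinarith) (by norm_num)
  obtain ⟨w2, hw20, hw21, h2⟩ := MsC.small ((CU + 1) * (4 * (C * C))) (41 / 800) hA1 (by norm_num)
  obtain ⟨w3, hw30, hw31, h3⟩ := MsC.small (C * C) (1 / 2200) hC2 (by norm_num)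
  refine ⟨min wT (min w1 (min w2 w3)), lt_min hwT0 (lt_min hw10 (lt_min hw20 hw30)),
    (min_le_left _ _).trans hwT1, ?_⟩
  intro l Φ hHE hCsp w hw hwm hGd
  have hwT : w ≤ wT := hwm.trans (min_le_left _ _)
  have hwm2 : w ≤ min w1 (min w2 w3) := hwm.trans (min_le_right _ _)
  have hwa : w ≤ w1 := hwm2.trans (min_le_left _ _)
  have hwm3 : w ≤ min w2 w3 := hwm2.trans (min_le_right _ _)
  have hwb : w ≤ w2 := hwm3.trans (min_le_left _ _)
  have hwc : w ≤ w3 := hwm3.trans (min_le_right _ _)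
  have hw1 : w ≤ 1 := hwT.trans hwT1
  have e1 : KK w ^ (-(99 / 200) : ℝ) = w ^ (99 / 400 : ℝ) := by
    rw [MsC.KKpow hw]; norm_num
  have e2 : KK w ^ (1 / 200 : ℝ) = w ^ (-(1 / 400) : ℝ) := by
    rw [MsC.KKpow hw]; norm_num
  have e3 : KK w ^ (199 / 200 : ℝ) = w ^ (-(199 / 400) : ℝ) := by
    rw [MsC.KKpow hw]; norm_num
  have e4 : KK w ^ (-(201 / 200) : ℝ) = w ^ (201 / 400 : ℝ) := by
    rw [MsC.KKpow hw]; norm_num
  rw [e1, e2, e3, e4]
  constructor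
  · -- the cusp set
    have hp1 : 0 < w ^ (99 / 400 : ℝ) := Real.rpow_pos_of_pos hw _
    have hp2 : 0 < w ^ (-(1 / 400) : ℝ) := Real.rpow_pos_of_pos hw _
    have hpr : C * w ^ (99 / 400 : ℝ) * (C * w ^ (-(1 / 400) : ℝ)) = C * C * w ^ (49 / 200 : ℝ) := by
      have : w ^ (99 / 400 : ℝ) * w ^ (-(1 / 400) : ℝ) = w ^ (49 / 200 : ℝ) := by
        rw [← Real.rpow_add hw]; norm_num
      calc C * w ^ (99 / 400 : ℝ) * (C * w ^ (-(1 / 400) : ℝ))
          = C * C * (w ^ (99 / 400 : ℝ) * w ^ (-(1 / 400) : ℝ)) := by ring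
        _ = _ := by rw [this]
    have hle : C * w ^ (99 / 400 : ℝ) ≤ C * w ^ (-(1 / 400) : ℝ) :=
      mul_le_mul_of_nonneg_left (Real.rpow_le_rpow_of_exponent_ge hw hw1 (by norm_num)) hC0.le
    have h14 : C * w ^ (99 / 400 : ℝ) * (C * w ^ (-(1 / 400) : ℝ)) ≤ 1 / 4 := by
      rw [hpr]
      have := h1 w hw hwa
      nlinarith
    refine ((hU l Φ hHE hCsp _ _ (mul_pos hC0 hp1) hle h14).2).trans ?_
    refine ENNReal.ofReal_le_ofReal ?_
    rw [hpr, Real.mul_rpow (by positivity) (Real.rpow_nonneg hw.le _), ← Real.rpow_mul hw.le]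
    have hc : (C * C) ^ (1 / 4 : ℝ) ≤ 4 * (C * C) := by
      have : (C * C) ^ (1 / 4 : ℝ) ≤ (C * C) ^ (1 : ℝ) := Real.rpow_le_rpow_of_exponent_le hC2 (by norm_num)
      rw [Real.rpow_one] at this
      linarith
    have hs : w ^ (49 / 200 * (1 / 4) : ℝ) = w ^ (41 / 800 : ℝ) * w ^ (1 / 100 : ℝ) := by
      rw [← Real.rpow_add hw]; norm_num
    have hp3 : 0 < w ^ (41 / 800 : ℝ) := Real.rpow_pos_of_pos hw _
    have hp4 : 0 < w ^ (1 / 100 : ℝ) := Real.rpow_pos_of_pos hw _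
    rw [hs]
    have hb := h2 w hw hwb
    have hq : CU * (C * C) ^ (1 / 4 : ℝ) ≤ (CU + 1) * (4 * (C * C)) :=
      mul_le_mul (by linarith) hc (Real.rpow_nonneg (by positivity) _) (by linarith)
    calc CU * ((C * C) ^ (1 / 4 : ℝ) * (w ^ (41 / 800 : ℝ) * w ^ (1 / 100 : ℝ)))
        = (CU * (C * C) ^ (1 / 4 : ℝ)) * w ^ (41 / 800 : ℝ) * w ^ (1 / 100 : ℝ) := by ring
      _ ≤ ((CU + 1) * (4 * (C * C))) * w ^ (41 / 800 : ℝ) * w ^ (1 / 100 : ℝ) :=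
          mul_le_mul_of_nonneg_right (mul_le_mul_of_nonneg_right hq hp3.le) hp4.le
      _ ≤ 1 * w ^ (1 / 100 : ℝ) := mul_le_mul_of_nonneg_right hb hp4.le
      _ = w ^ (1 / 100 : ℝ) := one_mul _
  · -- the torus set
    have hp1 : 0 < w ^ (-(199 / 400) : ℝ) := Real.rpow_pos_of_pos hw _
    have hp2 : 0 < w ^ (201 / 400 : ℝ) := Real.rpow_pos_of_pos hw _
    refine hT l Φ hHE w hw hwT hGd _ _ ?_ ?_ (mul_nonneg hC0.le hp2.le) ?_
    · have : (1 : ℝ) ≤ w ^ (-(199 / 400) : ℝ) := Real.one_le_rpow_of_pos_of_le_one_of_nonpos hw hw1 (by norm_num)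
      nlinarith
    · have h := h3 w hw hwc
      have hq : C ≤ C * C := by nlinarith
      have hr : C * w ^ (1 / 2200 : ℝ) ≤ 1 :=
        (mul_le_mul_of_nonneg_right hq (Real.rpow_nonneg hw.le _)).trans h
      have hs : w ^ (-(199 / 400) : ℝ) ≤ w ^ (1 / 2200 : ℝ) * w ^ (-2 : ℝ) := by
        rw [← Real.rpow_add hw]
        exact Real.rpow_le_rpow_of_exponent_ge hw hw1 (by norm_num)
      have hp5 : 0 < w ^ (-2 : ℝ) := Real.rpow_pos_of_pos hw _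
      calc C * w ^ (-(199 / 400) : ℝ) ≤ C * (w ^ (1 / 2200 : ℝ) * w ^ (-2 : ℝ)) :=
            mul_le_mul_of_nonneg_left hs hC0.le
        _ = (C * w ^ (1 / 2200 : ℝ)) * w ^ (-2 : ℝ) := by ring
        _ ≤ 1 * w ^ (-2 : ℝ) := mul_le_mul_of_nonneg_right hr hp5.le
        _ = w ^ (-2 : ℝ) := one_mul _
    · have h := h3 w hw hwc
      have hs : w ^ (-(199 / 400) : ℝ) * w ^ (201 / 400 : ℝ) = w ^ (1 / 2200 : ℝ) * w ^ (1 / 220 : ℝ) := by
        rw [← Real.rpow_add hw, ← Real.rpow_add hw]; norm_num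
      have hp5 : 0 < w ^ (1 / 220 : ℝ) := Real.rpow_pos_of_pos hw _
      calc C * w ^ (-(199 / 400) : ℝ) * (C * w ^ (201 / 400 : ℝ))
          = C * C * (w ^ (-(199 / 400) : ℝ) * w ^ (201 / 400 : ℝ)) := by ring
        _ = (C * C * w ^ (1 / 2200 : ℝ)) * w ^ (1 / 220 : ℝ) := by rw [hs]; ring
        _ ≤ 1 * w ^ (1 / 220 : ℝ) := mul_le_mul_of_nonneg_right h hp5.le
        _ = w ^ (1 / 220 : ℝ) := one_mul _

end

end Pool.Agent.A54.HS
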