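import Pool.Agent.Lib.HS.C.Spec

/-!
# Package `HS`, part C: the number of returns of one cell
-/

set_option autoImplicit false

namespace Pool.Agent.A54.HS

/-- **Rt** at most `K^(9/4)` returns per cell -/
theorem stmtRt (h1 : HSL.S_CLA) (h2 : HSL.S_CS) : StmtRt := by
  classical
  intro k C R hk hC hR
  obtain ⟨K0, hK0⟩ := h1 k C R (1 / 100) hk hC hR (by norm_num)
  refine ⟨max K0 (max 1 (4 ^ (10 : ℕ))), ?_⟩
  intro S hSC hSR hSK hU hO hV i hi hGi H hHk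
  have h0 : K0 ≤ S.K := (le_max_left _ _).trans hSK
  have h1' : 1 ≤ S.K := (le_max_left _ _).trans ((le_max_right _ _).trans hSK)
  have h2' : (4 : ℝ) ^ (10 : ℕ) ≤ S.K := (le_max_right _ _).trans ((le_max_right _ _).trans hSK)
  have hKp : 0 < S.K := by linarith
  have hp := hK0 S (S.K ^ (1 / 100 : ℝ)) hSC hSR h0 (Real.one_le_rpow h1' (by norm_num)) hU hO i hi
    hGi H hHk
  have hcs := h2 S.ι S.V H (fun t ht => (hHk t ht).1)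
  obtain ⟨n, hn⟩ : ∃ n : ℝ, n = (H.card : ℝ) := ⟨_, rfl⟩
  obtain ⟨v, hv⟩ : ∃ v : ℝ, v = (S.V.card : ℝ) := ⟨_, rfl⟩
  obtain ⟨q, hq⟩ : ∃ q : ℝ, q = ((HSL.prs H).card : ℝ) := ⟨_, rfl⟩
  rw [← hn, ← hq] at hp
  rw [← hn, ← hv, ← hq] at hcs
  rw [← hv] at hV
  rw [← hn]
  have hn0 : 0 ≤ n := by rw [hn]; positivity
  have hv0 : 0 ≤ v := by rw [hv]; positivity
  have e1 : S.K ^ (1 / 100 : ℝ) * S.K ^ (2 + 1 / 100 : ℝ) = S.K ^ (2 + 2 / 100 : ℝ) := by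
    rw [← Real.rpow_add hKp]
    norm_num
  rw [e1] at hp
  have h3 : n ^ 2 ≤ S.K ^ (2 + 1 / 100 : ℝ) * (S.K ^ (2 + 2 / 100 : ℝ) + 2 * n) := by
    refine hcs.trans (mul_le_mul hV hp (by rw [hq]; positivity) (by positivity))
  by_contra hlt
  rw [not_le] at hlt
  have h4 : S.K ^ (9 / 4 : ℝ) ≤ n := hlt.le
  have hK94 : 0 < S.K ^ (9 / 4 : ℝ) := Real.rpow_pos_of_pos hKp _
  have h5 : S.K ^ (2 + 2 / 100 : ℝ) ≤ n :=
    le_trans (Real.rpow_le_rpow_of_exponent_le h1' (by norm_num)) h4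
  have h6 : n ^ 2 ≤ S.K ^ (2 + 1 / 100 : ℝ) * (3 * n) :=
    h3.trans (mul_le_mul_of_nonneg_left (by linarith) (by positivity))
  have hn1 : 0 < n := lt_of_lt_of_le hK94 h4
  have h7 : n ≤ 3 * S.K ^ (2 + 1 / 100 : ℝ) := by
    have h8 : n * n ≤ n * (3 * S.K ^ (2 + 1 / 100 : ℝ)) := by nlinarith
    exact le_of_mul_le_mul_left h8 hn1
  have h9 : S.K ^ (9 / 4 : ℝ) = S.K ^ (2 + 1 / 100 : ℝ) * S.K ^ (24 / 100 : ℝ) := by
    rw [← Real.rpow_add hKp]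
    norm_num
  have h10 : (4 : ℝ) ≤ S.K ^ (24 / 100 : ℝ) := by
    have h11 : ((4 : ℝ) ^ (10 : ℕ)) ^ (24 / 100 : ℝ) ≤ S.K ^ (24 / 100 : ℝ) :=
      Real.rpow_le_rpow (by positivity) h2' (by norm_num)
    refine le_trans ?_ h11
    rw [← Real.rpow_natCast, ← Real.rpow_mul (by norm_num)]
    calc (4 : ℝ) = 4 ^ (1 : ℝ) := (Real.rpow_one _).symm
      _ ≤ _ := Real.rpow_le_rpow_of_exponent_le (by norm_num) (by norm_num)
  have hKp2 : 0 < S.K ^ (2 + 1 / 100 : ℝ) := Real.rpow_pos_of_pos hKp _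
  rw [h9] at h4
  nlinarith

end Pool.Agent.A54.HS
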