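import Pool.Agent.Lib.HS.C.AIc
import Pool.Agent.Lib.HS.C.Mc

/-!
# Package `HS`, part C: the distance two term (`StmtT1`)
-/

set_option autoImplicit false

namespace Pool.Agent.A54.HS

open MeasureTheory Filter Topology Set
open scoped ContDiff ComplexConjugate UpperHalfPlane MatrixGroups ENNReal
open Pool.Agent.A54.Dyn (G fl base ze io mk4 dom)
open Pool.Agent.A54.Av (Mat NonSc)
open Pool.Agent.A54.Hp Pool.Agent.A54.Hp.Hk Pool.Agent.A54.Hp.A2M

noncomputable section

namespace T1C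

lemma near_mono {C C' w m : ℝ} (h : C ≤ C') (hw : 0 ≤ w) (hm : 0 ≤ m) {X : HSL.MR}
    (hX : HSL.Near C w m X) : HSL.Near C' w m X := by
  obtain ⟨h1, h2, h3, h4⟩ := hX
  have e1 : C * m ≤ C' * m := mul_le_mul_of_nonneg_right h hm
  have e2 : C * w * m ≤ C' * w * m := mul_le_mul_of_nonneg_right (mul_le_mul_of_nonneg_right h hw) hm
  exact ⟨h1.trans e1, h2.trans e1, h3.trans e2, h4.trans e2⟩

lemma ret_mono {C C' w : ℝ} (h : C ≤ C') (hw : 0 ≤ w) {a b : HSL.MR} {m : ℕ} {s : HSL.MZ}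
    (hX : HSL.Ret C w a b m s) : HSL.Ret C' w a b m s :=
  ⟨hX.1, hX.2.1, near_mono h hw (Nat.cast_nonneg _) hX.2.2⟩

end T1C

open AIcC T1C in
theorem stmtT1 (h1 : StmtDst) (h2 : StmtRt) (h3 : StmtOv) (h4 : StmtTot) : StmtT1 := by
  classical
  intro k R C hk hR hC hMc
  have hkR : (251 : ℝ) ≤ k := by exact_mod_cast hk
  have hk0 : (0 : ℝ) < k := by linarith
  obtain ⟨k', hk'⟩ : ∃ k' : ℕ, k = k' + 1 := ⟨k - 1, by omega⟩
  have hk'1 : 1 ≤ k' := by omega
  have hk'R : (k' : ℝ) = k - 1 := by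
    rw [hk']
    push_cast
    ring
  have hk'0 : (0 : ℝ) < k' := by rw [hk'R]; linarith
  obtain ⟨Cd, hCd1, hCd⟩ := dsc stmtNuL h1 k' R hk'1 hR
  obtain ⟨K0, hK0⟩ := h2 k C R (by omega) hC hR
  obtain ⟨B, hB1, hB⟩ := h3 R hR
  obtain ⟨CT, hCT0, hCT⟩ := h4 R hR
  -- the parameters
  obtain ⟨θ, hθ⟩ : ∃ θ : ℝ, θ = thk k := ⟨_, rfl⟩
  have hθe : θ = 1 / (100000 * (k : ℝ)) := hθ
  have hθ0 : 0 < θ := by rw [hθe]; positivity
  have hkθ : k * θ = 1 / 100000 := by
    rw [hθe]
    field_simp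
  have hθ1 : θ ≤ 1 / 100000 := by
    rw [hθe]
    refine div_le_div_of_nonneg_left (by norm_num) (by norm_num) ?_
    nlinarith
  obtain ⟨σ, hσ⟩ : ∃ σ : ℝ, σ = HSL.sg k (thk k) := ⟨_, rfl⟩
  have hσe : σ = θ / (200 * (k : ℝ) ^ 2) := by rw [hσ, ← hθ]; rfl
  have hσ0 : 0 < σ := by rw [hσe]; positivity
  have hσθ : σ ≤ θ := by
    rw [hσe, div_le_iff₀ (by positivity)]
    have : (1 : ℝ) ≤ 200 * (k : ℝ) ^ 2 := by nlinarith
    nlinarith
  -- the size of `K`
  obtain ⟨X, hX⟩ : ∃ X : ℝ, X = Cd * (1 + CT) + B * ((2 * C) ^ k) ^ 14 + 1 := ⟨_, rfl⟩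
  have hXa : Cd ≤ X := by
    rw [hX]
    have : 0 ≤ Cd * CT := by positivity
    have : 0 ≤ B * ((2 * C) ^ k) ^ 14 := by positivity
    nlinarith
  have hXb : Cd * CT ≤ X := by
    rw [hX]
    have : 0 ≤ B * ((2 * C) ^ k) ^ 14 := by positivity
    nlinarith
  have hXc : B * ((2 * C) ^ k) ^ 14 ≤ X := by
    rw [hX]
    have : 0 ≤ Cd * (1 + CT) := by positivity
    linarith
  have hX1 : 1 ≤ X := by
    rw [hX]
    have : 0 ≤ Cd * (1 + CT) := by positivity
    have : 0 ≤ B * ((2 * C) ^ k) ^ 14 := by positivity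
    linarith
  set K₁ : ℝ := max (X ^ (100 : ℝ)) K0 with hK₁
  have hK₁1 : 1 ≤ K₁ := (Real.one_le_rpow hX1 (by positivity)).trans (le_max_left _ _)
  refine ⟨min 1 (K₁ ^ (-2 : ℝ)), lt_min one_pos (Real.rpow_pos_of_pos (by linarith) _),
    min_le_left _ _, ?_⟩
  intro l Φ hE w A hw hww V hV M hM1 hM2 Q hQ hQl hQc W hW hWc
  have hw1 : w ≤ 1 := hww.trans (min_le_left _ _)
  have hwb : w ≤ K₁ ^ (-2 : ℝ) := hww.trans (min_le_right _ _)
  obtain ⟨K, hK⟩ : ∃ K : ℝ, K = KK w := ⟨_, rfl⟩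
  have hKge : K₁ ≤ K := by rw [hK]; exact KK_ge hw (by linarith) hwb
  have hK1 : 1 ≤ K := hK₁1.trans hKge
  have hK0' : 0 < K := by linarith
  have hXK : X ≤ K ^ (1 / 100 : ℝ) := by
    have e1 : (X ^ (100 : ℝ)) ^ (1 / 100 : ℝ) = X := by
      rw [← Real.rpow_mul (by linarith)]
      norm_num
    rw [← e1]
    exact Real.rpow_le_rpow (by positivity) ((le_max_left _ _).trans hKge) (by norm_num)
  have hmono : ∀ {a b : ℝ}, a ≤ b → K ^ a ≤ K ^ b := fun h => Real.rpow_le_rpow_of_exponent_le hK1 h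
  have hpos : ∀ a : ℝ, 0 < K ^ a := fun a => Real.rpow_pos_of_pos hK0' a
  have hu : 1 / (2 * (k : ℝ)) = 50000 * θ := by
    rw [hθe]
    field_simp
    norm_num
  rw [hu, ← hK] at hM1
  rw [← hK, ← hθ] at hM2
  have hM1' : 1 ≤ M := (Real.one_le_rpow hK1 (by positivity)).trans hM1
  have hM0 : 0 < M := by linarith
  have hMlow : ∀ a : ℝ, 0 ≤ a → K ^ (50000 * θ * a) ≤ M ^ a := by
    intro a ha
    rw [Real.rpow_mul hK0'.le]
    exact Real.rpow_le_rpow (hpos _).le hM1 ha
  have hA := hV.hA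
  have hlo : K ^ (-(σ / 4)) ≤ A * (V.card : ℝ) := by
    have := hV.lo
    rw [← hK, ← hσ] at this
    exact this
  have hhi : (V.card : ℝ) ≤ K ^ (2 + σ) := by
    have := hV.hi
    rw [← hK, ← hσ] at this
    exact this
  rw [← hK, ← hθ] at hWc
  -- the mass of `W`
  have hAW : K ^ (-(2 * θ)) ≤ A * (W.card : ℝ) := by
    have h5 : K ^ θ * K ^ (-(2 * θ)) ≤ K ^ θ * (A * (W.card : ℝ)) := by
      rw [← Real.rpow_add hK0']
      calc K ^ (θ + -(2 * θ)) ≤ K ^ (-(σ / 4)) := hmono (by linarith)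
        _ ≤ A * (V.card : ℝ) := hlo
        _ ≤ A * (K ^ θ * (W.card : ℝ)) := mul_le_mul_of_nonneg_left hWc hA.le
        _ = _ := by ring
    exact le_of_mul_le_mul_left h5 (hpos _)
  have hne : ∀ z ∈ V, (cel R w z).Nonempty := by
    intro z hz
    by_contra hne
    rw [Set.not_nonempty_iff_eq_empty] at hne
    have h5 := hV.ms1 z hz
    rw [hne] at h5
    have h6 : ms Φ (∅ : Set G) = 0 := by
      unfold ms
      simp
    rw [h6] at h5
    have h7 : 0 < ENNReal.ofReal A := ENNReal.ofReal_pos.2 hA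
    exact absurd (lt_of_lt_of_le h7 h5) (lt_irrefl _)
  have hCF : CelF Φ R A (cel R w) W := by
    refine ⟨fun z hz => ⟨meas_cel R w z, cel_sub R w z, hV.ms1 z (hW hz), hV.ms2 z (hW hz)⟩, ?_⟩
    intro z _ z' _ h
    exact cel_disj R w h
  have hAWT : A * (W.card : ℝ) ≤ CT := by
    have h5 : ENNReal.ofReal (A * W.card) ≤ ENNReal.ofReal CT :=
      (hCF.ge hA.le).trans ((ms_mono Φ (Un_sub fun i _ => cel_sub R w i)).trans (hCT l Φ hE))
    exact (ENNReal.ofReal_le_ofReal_iff hCT0).1 h5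
  -- the finite set of the returns
  have hfin := Trp_finite stmtNm (by linarith : (0 : ℝ) ≤ R) (fun i (_ : i ∈ W) => cel_sub R w i)
    (Lv2_size hM1' hQ (2 * k'))
  set T : Finset ((Fin 3 → ℤ) × (Fin 3 → ℤ) × Mat) := hfin.toFinset with hT
  have hTT : Trp (cel R w) W (Lv2 Q (2 * k')) ⊆ (T : Set ((Fin 3 → ℤ) × (Fin 3 → ℤ) × Mat)) := by
    rw [hT, Set.Finite.coe_toFinset]
  have hd := hCd l Φ hE (Fin 3 → ℤ) (cel R w) W A hA hCF M hM1' Q hQ hQl (by
    have h5 : K ^ (49500 * θ) ≤ (Q.card : ℝ) := by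
      refine le_trans ?_ hQc
      refine le_trans (le_of_eq ?_) (hMlow (99 / 100) (by norm_num))
      congr 1
      ring
    have h6 : K ^ (49500 * θ * k') ≤ (Q.card : ℝ) ^ k' := by
      rw [Real.rpow_mul hK0'.le, Real.rpow_natCast]
      exact pow_le_pow_left₀ (hpos _).le h5 k'
    calc Cd ≤ K ^ (1 / 100 : ℝ) := hXa.trans hXK
      _ ≤ K ^ (49500 * θ * k' + -(2 * θ)) := by
          refine hmono ?_
          rw [hk'R]
          have : 49500 * θ * (k - 1) = 49500 * (k * θ) - 49500 * θ := by ring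
          have h7 : θ ≤ 1 / 100000 / 251 := by
            rw [le_div_iff₀ (by norm_num)]
            nlinarith
          rw [this, hkθ]
          linarith
      _ = K ^ (49500 * θ * k') * K ^ (-(2 * θ)) := Real.rpow_add hK0' _ _
      _ ≤ _ := mul_le_mul h6 hAW (hpos _).le (by positivity)) T hTT
  rw [Un_cel] at hd
  refine hd.trans (ENNReal.ofReal_le_ofReal ?_)
  -- the number of returns
  have hcount : (T.card : ℝ) ≤ W.card * K ^ (9 / 4 : ℝ) := by
    have hone : ∀ i ∈ W, ((T.filter (fun t => t.1 = i)).card : ℝ) ≤ K ^ (9 / 4 : ℝ) := by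
      intro i hi
      set H : Finset ((Fin 3 → ℤ) × Mat) := (T.filter (fun t => t.1 = i)).image (fun t => t.2) with hH
      have hcard : H.card = (T.filter (fun t => t.1 = i)).card := by
        rw [hH]
        refine Finset.card_image_of_injOn ?_
        intro a ha b hb hab
        have ha' := (Finset.mem_filter.1 (Finset.mem_coe.1 ha)).2
        have hb' := (Finset.mem_filter.1 (Finset.mem_coe.1 hb)).2
        exact Prod.ext (ha'.trans hb'.symm) hab
      rw [← hcard]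
      have hUnim : (sy R w C V).Unim := by
        intro z hz
        refine ⟨(rp R w z).2, fun a b => ?_⟩
        exact (rp_mem (hne z hz)).1 a b
      have hOv : (sy R w C V).Ovl ((2 * C) ^ k) ((sy R w C V).K ^ (1 / 100 : ℝ)) := by
        have h5 := hB w hw hw1 C V hne ((2 * C) ^ k) (one_le_pow₀ (by linarith))
        intro i hi h m hm hm0 T' hT'
        refine (h5 i hi h m hm hm0 T' hT').trans ?_
        change B * ((2 * C) ^ k) ^ 14 ≤ KK w ^ (1 / 100 : ℝ)
        rw [← hK]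
        exact hXc.trans hXK
      have hV2 : ((sy R w C V).V.card : ℝ) ≤ (sy R w C V).K ^ (2 + 1 / 100 : ℝ) := by
        change (V.card : ℝ) ≤ KK w ^ (2 + 1 / 100 : ℝ)
        rw [← hK]
        exact hhi.trans (hmono (by linarith))
      have hHk : ∀ y ∈ H, y.1 ∈ V ∧ HSL.Prim y.2 ∧ ∃ m : ℕ,
          HSL.Ret ((2 * C) ^ k) w (rp R w i).1 (rp R w y.1).1 m y.2 ∧ (m : ℝ) ≤ 4 ^ k * K ∧
            m.primeFactorsList.length ≤ 2 * k := by
        intro y hy
        rw [hH, Finset.mem_image] at hy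
        obtain ⟨t, ht, rfl⟩ := hy
        rw [Finset.mem_filter, hT, Set.Finite.mem_toFinset] at ht
        obtain ⟨⟨b1, b2, ⟨b3, n, b4, b5⟩, b6⟩, b7⟩ := ht
        have hPp : ∀ p ∈ Q, p.Prime ∧ M < (p : ℝ) ∧ (p : ℝ) ≤ 2 * M := by
          intro p hp
          have h1 := hQ hp
          unfold Pm at h1
          rw [Finset.mem_filter, Finset.mem_Ioc] at h1
          exact ⟨h1.2, (Nat.floor_lt hM0.le).1 h1.1.1, (Nat.le_floor_iff (by linarith)).1 h1.1.2⟩
        obtain ⟨c1, c2⟩ := sm_size hM1' hPp _ n b4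
        have hn0 : 0 < n := Nat.pos_of_ne_zero b4.1
        have hdet : t.2.2.det = (n : ℤ) ^ 2 := by rw [b5, _root_.sq]
        have hret := hMc w hw hw1 t.1 t.2.1 t.2.2 n hn0 hdet b6
        refine ⟨hW b2, Prim_of_Pr b3, n, ?_, ?_, ?_⟩
        · rw [← b7]
          refine ret_mono ?_ hw.le hret
          calc C ≤ 2 * C := by linarith
            _ ≤ (2 * C) ^ k := le_self_pow₀ (by linarith) (by omega)
        · have e1 : (2 * M) ^ (2 * k') = 4 ^ k' * M ^ (2 * k') := by
            rw [mul_pow, pow_mul]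
            norm_num
          have e2 : M ^ (2 * k') ≤ K := by
            have h6 : M ^ (2 * k') ≤ (K ^ ((1 + θ) / (2 * (k : ℝ)))) ^ (2 * k') :=
              pow_le_pow_left₀ hM0.le hM2 _
            refine h6.trans ?_
            rw [← Real.rpow_natCast, ← Real.rpow_mul hK0'.le]
            conv_rhs => rw [← Real.rpow_one K]
            refine hmono ?_
            push_cast
            rw [hk'R, div_mul_eq_mul_div, div_le_one (by positivity)]
            nlinarith
          calc (n : ℝ) ≤ (2 * M) ^ (2 * k') := c2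
            _ = 4 ^ k' * M ^ (2 * k') := e1
            _ ≤ 4 ^ k * K := by
                refine mul_le_mul (pow_le_pow_right₀ (by norm_num) (by omega)) e2 (by positivity)
                  (by positivity)
        · have h6 : n.primeFactorsList.length = 2 * k' := by
            have := b4.2.2
            rw [ArithmeticFunction.cardFactors_apply] at this
            exact this
          omega
      have hwS : (sy R w C V).w = w := sy_w hw R C V
      have h5 := hK0 (sy R w C V) rfl rfl (by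
        change K0 ≤ KK w
        rw [← hK]
        exact (le_max_right _ _).trans hKge) hUnim hOv hV2 i (hW hi) (hV.gt i (hW hi)) H (by
        intro y hy
        obtain ⟨a1, a2, m, a3, a4, a5⟩ := hHk y hy
        refine ⟨a1, a2, m, ?_, ?_, a5⟩
        · rw [hwS]
          exact a3
        · change (m : ℝ) ≤ 4 ^ k * KK w
          rw [← hK]
          exact a4)
      rw [hK]
      exact h5
    have hsum : T.card = ∑ i ∈ W, (T.filter (fun t => t.1 = i)).card :=
      Finset.card_eq_sum_card_fiberwise (fun t ht => by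
        have ht' := Finset.mem_coe.1 ht
        rw [hT, Set.Finite.mem_toFinset] at ht'
        exact ht'.1)
    rw [hsum]
    push_cast
    calc ∑ i ∈ W, ((T.filter (fun t => t.1 = i)).card : ℝ) ≤ ∑ _i ∈ W, K ^ (9 / 4 : ℝ) :=
          Finset.sum_le_sum hone
      _ = _ := by rw [Finset.sum_const, nsmul_eq_mul]
  have h5 : Cd * A * T.card ≤ K ^ (1 / 100 + 9 / 4 : ℝ) := by
    calc Cd * A * T.card ≤ Cd * A * (W.card * K ^ (9 / 4 : ℝ)) :=
          mul_le_mul_of_nonneg_left hcount (by positivity)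
      _ = Cd * (A * W.card) * K ^ (9 / 4 : ℝ) := by ring
      _ ≤ Cd * CT * K ^ (9 / 4 : ℝ) :=
          mul_le_mul_of_nonneg_right (mul_le_mul_of_nonneg_left hAWT (by linarith)) (hpos _).le
      _ ≤ K ^ (1 / 100 : ℝ) * K ^ (9 / 4 : ℝ) := mul_le_mul_of_nonneg_right (hXb.trans hXK) (hpos _).le
      _ = _ := (Real.rpow_add hK0' _ _).symm
  calc (Cd * A * T.card) ^ ((1 : ℝ) / (2 * k')) ≤ (K ^ (1 / 100 + 9 / 4 : ℝ)) ^ ((1 : ℝ) / (2 * k')) :=
        Real.rpow_le_rpow (by positivity) h5 (by positivity)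
    _ = K ^ ((1 / 100 + 9 / 4) * ((1 : ℝ) / (2 * k'))) := (Real.rpow_mul hK0'.le _ _).symm
    _ ≤ K ^ (50000 * θ * (5 / 2)) := by
        refine hmono ?_
        have e1 : 50000 * θ * (5 / 2) = 5 / 4 / k := by
          rw [hθe]
          field_simp
          norm_num
        rw [e1, hk'R]
        have hk1 : (0 : ℝ) < k - 1 := by linarith
        rw [mul_one_div, div_le_div_iff₀ (by positivity) hk0]
        nlinarith
    _ ≤ M ^ (5 / 2 : ℝ) := hMlow (5 / 2) (by norm_num)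

end

end Pool.Agent.A54.HS
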